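import Pool.Agent.H.MP_32de40_an.B

open Filter Topology Metric Set MeasureTheory Complex ComplexConjugate
open Pool.Agent.H.MP_5011cf_an Pool.Agent.H.MP_32de40_an

namespace Pool.Agent.H.MP_3bea3b_an

def Rad (Θ : ℂ → ℂ) : Prop :=
  ∀ᵐ θ : ℝ, ∃ w : ℂ, ‖w‖ = 1 ∧ Tendsto (fun r : ℝ => Θ (r * ex θ)) (𝓝[<] 1) (𝓝 w)

theorem le1 {Θ : ℂ → ℂ} (hd : DifferentiableOn ℂ Θ (ball 0 1)) {M : ℝ}
    (hM : ∀ z ∈ ball (0 : ℂ) 1, ‖Θ z‖ ≤ M) (hl : Rad Θ) {z : ℂ} (hz : z ∈ ball (0 : ℂ) 1) : ‖Θ z‖ ≤ 1 := by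
  have z1 := sub_pos.2 (mem_ball_zero_iff.1 hz)
  have m : ∀ r ∈ Ioo (0 : ℝ) 1, ∀ w ∈ closedBall (0 : ℂ) 1, r * w ∈ ball (0 : ℂ) 1 := fun r hr w hw => by
    rw [mem_ball_zero_iff, norm_mul, norm_real, Real.norm_of_nonneg hr.1.le]
    nlinarith [mem_closedBall_zero_iff.1 hw, hr.1, hr.2]
  have em : ∀ θ, ex θ ∈ closedBall (0 : ℂ) 1 := fun θ => mem_closedBall_zero_iff.2 (ex_norm θ).le
  have c : ∀ r ∈ Ioo (0 : ℝ) 1, Continuous fun θ => ‖Θ (r * ex θ)‖ := fun r hr =>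
    (hd.continuousOn.comp_continuous (continuous_const.mul ex_cont) fun θ => m r hr _ (em θ)).norm
  have ev : ∀ᶠ r : ℝ in 𝓝[<] 1, r ∈ Ioo (0 : ℝ) 1 := Ioo_mem_nhdsLT one_pos
  have key : ∀ n : ℕ, ‖Θ z‖ ^ n ≤ (1 - ‖z‖)⁻¹ := fun n => by
    have t1 : Tendsto (fun r : ℝ => ∫ θ in (0)..2 * Real.pi, ‖Θ (r * ex θ)‖ ^ n) (𝓝[<] 1)
        (𝓝 (∫ _ in (0)..2 * Real.pi, (1 : ℝ))) :=
      intervalIntegral.tendsto_integral_filter_of_dominated_convergence (fun _ => M ^ n)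
        (ev.mono fun r hr => ((c r hr).pow n).aestronglyMeasurable)
        (ev.mono fun r hr => Eventually.of_forall fun θ _ => by
          rw [norm_pow, norm_norm]
          exact pow_le_pow_left₀ (norm_nonneg _) (hM _ (m r hr _ (em θ))) n)
        intervalIntegrable_const (hl.mono fun θ ⟨w, w1, hw⟩ _ => by simpa [w1] using hw.norm.pow n)
    have t2 := ((hd.continuousOn.continuousAt (isOpen_ball.mem_nhds hz)).tendsto.comp (radt z)).norm.pow n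
    refine le_of_mul_le_mul_left ((le_of_tendsto_of_tendsto (t2.const_mul (2 * Real.pi))
      (t1.const_mul (1 - ‖z‖)⁻¹) (ev.mono fun r hr => ?_)).trans_eq (by simp [mul_comm])) Real.two_pi_pos
    have d : DifferentiableOn ℂ (fun w => Θ (r * w) ^ n) (closedBall 0 1) :=
      (hd.comp (by fun_prop) (m r hr)).pow n
    have e := congrArg norm (((d.mono closure_ball_subset_closedBall).diffContOnCl).circleIntegral_sub_inv_smul hz)
    rw [norm_smul, norm_mul, norm_mul, norm_I, mul_one, norm_real, Complex.norm_two, norm_pow,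
      Real.norm_of_nonneg Real.pi_pos.le, circleIntegral] at e
    simp only [Function.comp]
    rw [← e, ← intervalIntegral.integral_const_mul]
    refine intervalIntegral.norm_integral_le_of_norm_le Real.two_pi_pos.le (Eventually.of_forall fun θ _ => ?_)
      ((continuous_const.mul ((c r hr).pow n)).intervalIntegrable _ _)
    have e2 : circleMap 0 1 θ = ex θ := by simp [circleMap, ex]
    rw [deriv_circleMap, norm_smul, norm_smul, norm_mul, e2, ex_norm, norm_I, one_mul, one_mul, norm_inv,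
      norm_pow]
    exact mul_le_mul_of_nonneg_right (inv_anti₀ z1 (ex_ge θ z)) (by positivity)
  by_contra! h
  obtain ⟨n, hn⟩ := pow_unbounded_of_one_lt (1 - ‖z‖)⁻¹ h
  exact hn.not_ge (key n)

theorem cont' {Θ : ℂ → ℂ} (hd : DifferentiableOn ℂ Θ (ball 0 1)) (h1 : ∀ z ∈ ball (0 : ℂ) 1, ‖Θ z‖ ≤ 1)
    (hl : Rad Θ) {ζ : ℂ} (hζ : ‖ζ‖ = 1) {d ε : ℝ} (d0 : 0 < d) (d1 : d ≤ 1) (e0 : 0 < ε)
    (hb : ∀ z ∈ ball ζ d ∩ ball 0 1, ε ≤ ‖Θ z‖) :
    ∃ g : ℂ → ℂ, DifferentiableOn ℂ g (ball ζ (d / 8)) ∧ EqOn g Θ (ball ζ (d / 8) ∩ ball 0 1) ∧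
      ∀ z ∈ ball ζ (d / 8), ‖g z‖ ≤ 1 + ε⁻¹ := by
  obtain ⟨c, hc⟩ : ∃ c : ℝ, exp (c * I) = ζ := ⟨ζ.arg, by
    simpa [hζ] using norm_mul_exp_arg_mul_I ζ⟩
  have z0 : ζ ≠ 0 := norm_pos_iff.mp (by linarith)
  have m1 : ∀ w : ℂ, 0 < w.im → exp (w * I) ∈ ball (0 : ℂ) 1 := fun w hw => by
    rw [mem_ball_zero_iff, norm_exp]
    simpa using hw
  obtain ⟨K, k1, k2, k3⟩ := refl (G := fun w => Θ (exp (w * I))) (p := c - d / 4) (q := c + d / 4)
    (a := d / 4) (by linarith) e0 (hd.comp (by fun_prop) fun w hw => m1 w hw.2.1)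
    (fun w hw => ⟨hb _ ⟨by
      have b := norm_le_abs_re_add_abs_im ((w - c) * I)
      have b1 : |w.im| < d / 4 := abs_lt.mpr ⟨by linarith [hw.2.1], hw.2.2⟩
      have b2 : |w.re - c| < d / 4 := abs_lt.mpr ⟨by linarith [hw.1.1], by linarith [hw.1.2]⟩
      simp only [mul_re, sub_re, ofReal_re, I_re, mul_zero, sub_im, ofReal_im, sub_zero, I_im,
        mul_one, zero_sub, abs_neg, mul_im, add_zero] at b
      rw [mem_ball, dist_eq_norm, show exp (w * I) - ζ = ζ * (exp ((w - c) * I) - 1) by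
        rw [← hc, mul_sub, ← exp_add]
        congr 2 <;> ring, norm_mul, hζ, one_mul]
      linarith [norm_exp_sub_one_le (x := (w - c) * I) (by linarith)], m1 w hw.2.1⟩,
      h1 _ (m1 w hw.2.1)⟩)
    (hl.mono fun x ⟨w, w1, hw⟩ => by
      have t : Tendsto (fun y : ℝ => Real.exp (-y)) (𝓝[>] 0) (𝓝[<] 1) :=
        tendsto_nhdsWithin_iff.mpr ⟨by
          have : Continuous fun y : ℝ => Real.exp (-y) := by fun_prop
          simpa using (this.tendsto 0).mono_left nhdsWithin_le_nhds,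
          eventually_mem_nhdsWithin.mono fun y hy => by simpa using hy⟩
      refine w1 ▸ (hw.comp t).norm.congr fun y => ?_
      simp only [Function.comp, ex, ofReal_exp, ← exp_add]
      congr 3
      push_cast
      linear_combination (-y : ℂ) * I_mul_I)
  have q1 : ∀ z ∈ ball ζ (d / 8), ‖z / ζ - 1‖ < d / 8 := fun z hz => by
    rwa [div_sub_one z0, norm_div, hζ, div_one, ← dist_eq_norm]
  have q2 : ∀ z ∈ ball ζ (d / 8), (c - I * log (z / ζ) : ℂ) ∈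
      Ioo (c - d / 4) (c + d / 4) ×ℂ Ioo (-(d / 4)) (d / 4) := fun z hz => by
    have b := norm_log_one_add_half_le_self (z := z / ζ - 1) (by linarith [q1 z hz])
    rw [add_sub_cancel] at b
    have b1 := abs_le.mp (abs_re_le_norm (log (z / ζ)))
    have b2 := abs_le.mp (abs_im_le_norm (log (z / ζ)))
    have := q1 z hz
    refine ⟨?_, ?_⟩ <;> simp only [mem_preimage, mem_Ioo, sub_re, ofReal_re, mul_re, I_re, zero_mul,
      I_im, one_mul, zero_sub, sub_im, ofReal_im, mul_im, zero_add] <;> constructor <;> linarith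
  have q3 : ∀ z ∈ ball ζ (d / 8), z / ζ ∈ slitPlane := fun z hz => by
    simpa using mem_slitPlane_of_norm_lt_one (z := z / ζ - 1) (by linarith [q1 z hz])
  have g1 : DifferentiableOn ℂ (fun z => K (c - I * log (z / ζ))) (ball ζ (d / 8)) :=
    k1.comp (fun z hz => ((((differentiableAt_id.div_const ζ).clog (q3 z hz)).const_mul
      I).const_sub _).differentiableWithinAt) q2
  refine ⟨_, g1, fun z hz => ?_, fun z hz => k3 _ (q2 z hz)⟩
  have e : exp ((c - I * log (z / ζ)) * I) = z := by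
    rw [show (c - I * log (z / ζ)) * I = c * I + log (z / ζ) by
      linear_combination (-log (z / ζ)) * I_mul_I, exp_add, hc,
      exp_log (slitPlane_ne_zero (q3 z hz.1))]
    field_simp
  refine (k2 ⟨(q2 z hz.1).1, ?_, (q2 z hz.1).2.2⟩).trans (congrArg Θ e)
  have := mem_ball_zero_iff.mp hz.2
  rw [← e, norm_exp, Real.exp_lt_one_iff] at this
  simpa using this

theorem cau {g : ℂ → ℂ} {z : ℂ} {r M : ℝ} (r0 : 0 < r) (hd : DifferentiableOn ℂ g (ball z r))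
    (hM : ∀ w ∈ ball z r, ‖g w‖ ≤ M) : r * ‖deriv g z‖ ≤ 2 * M := by
  rw [← le_div_iff₀' r0]
  refine norm_deriv_le_div_of_mapsTo_ball hd (fun w hw => ?_) r0
  rw [mem_closedBall, dist_eq_norm]
  linarith [norm_sub_le (g w) (g z), hM w hw, hM z (mem_ball_self r0)]

theorem cau1 {g : ℂ → ℂ} {z : ℂ} {M : ℝ} (hd : DifferentiableOn ℂ g (ball 0 1))
    (hM : ∀ w ∈ ball (0 : ℂ) 1, ‖g w‖ ≤ M) (hz : z ∈ ball (0 : ℂ) 1) : (1 - ‖z‖) * ‖deriv g z‖ ≤ 2 * M :=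
  have s : ball z (1 - ‖z‖) ⊆ ball 0 1 := ball_subset_ball' (by simp)
  cau (sub_pos.2 (mem_ball_zero_iff.1 hz)) (hd.mono s) fun w hw => hM w (s hw)

def Bw (W : ℝ → ℝ) (f : ℂ → ℂ) : Prop :=
  ∃ C, 0 ≤ C ∧ ∀ z ∈ ball (0 : ℂ) 1, (1 - ‖z‖) * ‖deriv f z‖ ≤ C * W (1 - ‖z‖)

def Tw (W : ℝ → ℝ) (f Θ : ℂ → ℂ) (ε : ℝ) : Prop :=
  ∃ C, 0 ≤ C ∧ ∀ z ∈ ball (0 : ℂ) 1, ‖Θ z‖ < ε → ‖f z‖ ≤ C * W (1 - ‖z‖)

structure Mo (W : ℝ → ℝ) : Prop where
  pos : ∀ t, 0 < t → 0 < W t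
  mono : ∀ s t, 0 < s → s ≤ t → W s ≤ W t

variable {W : ℝ → ℝ} {f Θ : ℂ → ℂ} {C M : ℝ}

theorem lip (hW : Mo W) (ad : ∀ s t, 0 < s → s ≤ t → s * W t ≤ C * (t * W s)) {l : ℝ} (l0 : 0 < l)
    (l1 : l < 1) (geo : ∀ t, 0 < t → t ≤ 1 / 2 → W (l * t) ≤ W t / 2)
    (hd : DifferentiableOn ℂ f (ball 0 1)) (hM : ∀ z ∈ ball (0 : ℂ) 1, ‖f z‖ ≤ M) (hB : Bw W f) :
    ∃ B, 0 ≤ B ∧ ∀ z ∈ ball (0 : ℂ) 1, ∀ w ∈ ball (0 : ℂ) 1, ∀ d, 0 < d → ‖z - w‖ ≤ d →
      ‖f z - f w‖ ≤ B * W d := by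
  obtain ⟨A, A0, hA⟩ := hB
  have C0 : 0 ≤ C := by nlinarith [ad 1 1 one_pos le_rfl, hW.pos 1 one_pos]
  have M0 := (norm_nonneg _).trans (hM 0 (mem_ball_self one_pos))
  have k : ∀ s, 0 < s → ∀ y ∈ closedBall (0 : ℂ) (1 - s), ∀ y' ∈ closedBall (0 : ℂ) (1 - s),
      ‖f y - f y'‖ ≤ A * C * (W s / s) * ‖y - y'‖ := fun s s0 y hy y' hy' => by
    have sb : closedBall (0 : ℂ) (1 - s) ⊆ ball 0 1 := closedBall_subset_ball (by linarith)
    refine (convex_closedBall _ _).norm_image_sub_le_of_norm_deriv_le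
      (fun x hx => hd.differentiableAt (isOpen_ball.mem_nhds (sb hx))) (fun x hx => ?_) hy' hy
    have h1 : s ≤ 1 - ‖x‖ := by linarith [mem_closedBall_zero_iff.1 hx]
    rw [← mul_div_assoc, le_div_iff₀ s0]
    refine le_of_mul_le_mul_left ?_ (s0.trans_le h1)
    nlinarith [mul_le_mul_of_nonneg_left (hA x (sb hx)) s0.le, mul_le_mul_of_nonneg_left (ad _ _ s0 h1) A0]
  have m : ∀ z ∈ ball (0 : ℂ) 1, ∀ s s' : ℝ, s ≤ s' → s' ≤ 1 → ((1 - s' : ℝ) * z : ℂ) ∈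
      closedBall (0 : ℂ) (1 - s) := fun z hz s s' h1 h2 => by
    rw [mem_closedBall_zero_iff, norm_mul, norm_real, Real.norm_of_nonneg (by linarith)]
    nlinarith [mem_ball_zero_iff.1 hz, norm_nonneg z]
  have r : ∀ d, 0 < d → d ≤ 1 / 2 → ∀ z ∈ ball (0 : ℂ) 1,
      ‖f z - f ((1 - d : ℝ) * z)‖ ≤ A * C / l * W d := fun d d0 d1 z hz => by
    have p1 : ∀ n : ℕ, l ^ n * d ≤ d := fun n => mul_le_of_le_one_left d0.le (pow_le_one₀ l0.le l1.le)
    have g : ∀ n : ℕ, W (l ^ n * d) ≤ W d / 2 ^ n := fun n => by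
      induction n with
      | zero => simp
      | succ n ih =>
        rw [pow_succ', mul_assoc, pow_succ, ← div_div]
        linarith [geo (l ^ n * d) (by positivity) ((p1 n).trans d1)]
    have s : ∀ n : ℕ, ‖f ((1 - l ^ n * d : ℝ) * z) - f ((1 - d : ℝ) * z)‖ ≤
        A * C / l * (W d - W d / 2 ^ n) := fun n => by
      induction n with
      | zero => simp
      | succ n ih =>
        have q : l ^ (n + 1) * d ≤ l ^ n * d := by
          rw [pow_succ', mul_assoc]; exact mul_le_of_le_one_left (by positivity) l1.le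
        have h1 := k _ (by positivity) _ (m z hz _ _ le_rfl (by linarith [p1 (n + 1)])) _
          (m z hz _ _ q (by linarith [p1 n]))
        have h2 : ‖((1 - l ^ (n + 1) * d : ℝ) * z : ℂ) - (1 - l ^ n * d : ℝ) * z‖ ≤ l ^ n * d := by
          rw [← sub_mul, ← ofReal_sub, norm_mul, norm_real, Real.norm_of_nonneg (by linarith)]
          nlinarith [mem_ball_zero_iff.1 hz, norm_nonneg z, show 0 < l ^ (n + 1) * d by positivity]
        have h3 := h1.trans (mul_le_mul (mul_le_mul_of_nonneg_left (div_le_div_of_nonneg_right (g _)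
          (by positivity)) (by positivity)) h2 (norm_nonneg _) (by have := hW.pos d d0; positivity))
        refine (norm_sub_le_norm_sub_add_norm_sub _ _ _).trans ((add_le_add h3 ih).trans_eq ?_)
        field_simp
        ring
    have t : Tendsto (fun n : ℕ => ((1 - l ^ n * d : ℝ) * z : ℂ)) atTop (𝓝 z) := by
      simpa using ((continuous_ofReal.tendsto _).comp (((tendsto_pow_atTop_nhds_zero_of_lt_one l0.le
        l1).mul_const d).const_sub 1)).mul_const z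
    refine le_of_tendsto' (((hd.continuousOn.continuousAt (isOpen_ball.mem_nhds hz)).tendsto.comp
      t).sub_const _).norm fun n => (s n).trans (mul_le_mul_of_nonneg_left (sub_le_self _ ?_) (by positivity))
    have := hW.pos d d0
    positivity
  have W2 := hW.pos (1 / 2) (by norm_num)
  refine ⟨2 * (A * C / l) + A * C + 2 * M / W (1 / 2), by positivity, fun z hz w hw d d0 h => ?_⟩
  have Wd := hW.pos d d0
  rcases le_total d (1 / 2) with d1 | d1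
  · have h1 := k d d0 _ (m z hz _ _ le_rfl (by linarith)) _ (m w hw _ _ le_rfl (by linarith))
    have h2 : ‖((1 - d : ℝ) * z : ℂ) - (1 - d : ℝ) * w‖ ≤ d := by
      rw [← mul_sub, norm_mul, norm_real, Real.norm_of_nonneg (by linarith)]
      nlinarith [norm_nonneg (z - w)]
    have h3 := h1.trans (mul_le_mul_of_nonneg_left h2 (by positivity))
    rw [mul_assoc, div_mul_cancel₀ _ d0.ne'] at h3
    have h4 := r d d0 d1 w hw
    rw [norm_sub_rev] at h4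
    have := norm_sub_le_norm_sub_add_norm_sub (f z) (f ((1 - d : ℝ) * z)) (f w)
    have := norm_sub_le_norm_sub_add_norm_sub (f ((1 - d : ℝ) * z)) (f ((1 - d : ℝ) * w)) (f w)
    nlinarith [r d d0 d1 z hz, show 0 ≤ 2 * M / W (1 / 2) * W d by positivity]
  · have : 2 * M ≤ 2 * M / W (1 / 2) * W d := by
      rw [div_mul_eq_mul_div, le_div_iff₀ W2]
      exact mul_le_mul_of_nonneg_left (hW.mono _ _ (by norm_num) d1) (by positivity)
    nlinarith [norm_sub_le (f z) (f w), hM z hz, hM w hw, show 0 ≤ (2 * (A * C / l) + A * C) * W d by positivity]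

theorem dirA (hW : Mo W) (ad : ∀ s t, 0 < s → s ≤ t → s * W t ≤ C * (t * W s)) (hl : Rad Θ)
    (h1 : ∀ z ∈ ball (0 : ℂ) 1, ‖Θ z‖ ≤ 1) (hM : ∀ z ∈ ball (0 : ℂ) 1, ‖f z‖ ≤ M) {B B' : ℝ} (B0 : 0 ≤ B)
    (B1 : 0 ≤ B') (hB : ∀ z ∈ ball (0 : ℂ) 1, ∀ w ∈ ball (0 : ℂ) 1, ∀ d, 0 < d → ‖z - w‖ ≤ d →
      ‖f z - f w‖ ≤ B * W d) (hB' : ∀ z ∈ ball (0 : ℂ) 1, ∀ w ∈ ball (0 : ℂ) 1, ∀ d, 0 < d → ‖z - w‖ ≤ d →
      ‖(f * Θ) z - (f * Θ) w‖ ≤ B' * W d) {ε : ℝ} (e1 : ε < 1) : Tw W f Θ ε := by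
  have C0 : 0 ≤ C := by nlinarith [ad 1 1 one_pos le_rfl, hW.pos 1 one_pos]
  have e2 := sub_pos.2 e1
  refine ⟨(B + B') * (3 * C) / (1 - ε), by positivity, fun z hz hε => ?_⟩
  obtain ⟨t, ht⟩ : ∃ t, t = 1 - ‖z‖ := ⟨_, rfl⟩
  have t0 : 0 < t := ht ▸ sub_pos.2 (mem_ball_zero_iff.1 hz)
  obtain ⟨θ0, -, e0⟩ := polar z
  obtain ⟨θ, θ1, w, w1, hw⟩ := (volume.dense_of_ae hl).inter_open_nonempty _ isOpen_ball
    (nonempty_ball.2 t0 : (ball θ0 t).Nonempty)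
  have a1 : ‖z - ex θ‖ ≤ 2 * t := by
    have := norm_sub_le_norm_sub_add_norm_sub z (ex θ0) (ex θ)
    have b : ‖z - ex θ0‖ = t := by
      nth_rw 1 [e0]
      rw [← sub_one_mul, norm_mul, ex_norm, mul_one, ← ofReal_one, ← ofReal_sub, norm_real,
        Real.norm_of_nonpos (by linarith), neg_sub, ht]
    have := ex_sub θ0 θ
    rw [mem_ball', Real.dist_eq] at θ1
    linarith
  have a2 : ‖f z‖ * (1 - ε) ≤ (B + B') * W (3 * t) + M * (1 - ‖w‖) :=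
    ge_of_tendsto (((hw.norm.const_sub 1).const_mul M).const_add _) ((rad (ex_norm θ) t0).mono
      fun r ⟨_, _, r1, r2⟩ => by
        have b : ‖z - r * ex θ‖ ≤ 3 * t := by
          rw [mem_ball', dist_eq_norm] at r1
          linarith [norm_sub_le_norm_sub_add_norm_sub z (ex θ) (r * ex θ)]
        have b1 := (norm_sub_norm_le _ _).trans (hB z hz _ r2 _ (by positivity) b)
        have b2 := hB' z hz _ r2 _ (by positivity) b
        rw [norm_sub_rev] at b2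
        replace b2 := (norm_sub_norm_le _ _).trans b2
        simp only [Pi.mul_apply, norm_mul] at b2
        nlinarith [mul_le_mul_of_nonneg_right (hM _ r2) (sub_nonneg.2 (h1 _ r2)), norm_nonneg (f z)])
  have a3 : W (3 * t) ≤ 3 * C * W t := le_of_mul_le_mul_left (by
    linarith [ad t (3 * t) t0 (by linarith)]) t0
  rw [← ht, div_mul_eq_mul_div, le_div_iff₀ e2]
  rw [w1] at a2
  nlinarith [mul_le_mul_of_nonneg_left a3 (add_nonneg B0 B1)]

theorem dirB (hW : Mo W) (ad : ∀ s t, 0 < s → s ≤ t → s * W t ≤ C * (t * W s)) (hl : Rad Θ)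
    (td : DifferentiableOn ℂ Θ (ball 0 1)) (h1 : ∀ z ∈ ball (0 : ℂ) 1, ‖Θ z‖ ≤ 1)
    (hd : DifferentiableOn ℂ f (ball 0 1)) (hM : ∀ z ∈ ball (0 : ℂ) 1, ‖f z‖ ≤ M) (hf : Bw W f) {B : ℝ}
    (B0 : 0 ≤ B) (hB : ∀ z ∈ ball (0 : ℂ) 1, ∀ w ∈ ball (0 : ℂ) 1, ∀ d, 0 < d → ‖z - w‖ ≤ d →
      ‖f z - f w‖ ≤ B * W d) {ε : ℝ} (e0 : 0 < ε) (hT : Tw W f Θ ε) : Bw W (f * Θ) := by
  have C0 : 0 ≤ C := by nlinarith [ad 1 1 one_pos le_rfl, hW.pos 1 one_pos]
  have M0 := (norm_nonneg _).trans (hM 0 (mem_ball_self one_pos))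
  have W1 := hW.pos 1 one_pos
  obtain ⟨A, A0, hA⟩ := hf
  obtain ⟨T, T0, hT⟩ := hT
  obtain ⟨K, hK⟩ : ∃ K, K = M / W 1 + T + B := ⟨_, rfl⟩
  have K0 : 0 ≤ K := by rw [hK]; positivity
  refine ⟨A + K * (128 * (1 + ε⁻¹)) * (2 * C), by positivity, fun z hz => ?_⟩
  obtain ⟨t, ht⟩ : ∃ t, t = 1 - ‖z‖ := ⟨_, rfl⟩
  have t0 : 0 < t := ht ▸ sub_pos.2 (mem_ball_zero_iff.1 hz)
  obtain ⟨ρ, ρ0, ρ1, a, b⟩ : ∃ ρ, 0 ≤ ρ ∧ ρ ≤ 1 ∧ (∀ w ∈ ball z ρ ∩ ball 0 1, ε ≤ ‖Θ w‖) ∧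
      ‖f z‖ ≤ K * W (2 * (ρ + t)) := by
    by_cases h : ∀ w ∈ ball z 1 ∩ ball 0 1, ε ≤ ‖Θ w‖
    · refine ⟨1, zero_le_one, le_rfl, h, (hM z hz).trans ?_⟩
      have := hW.mono 1 (2 * (1 + t)) one_pos (by linarith)
      rw [← div_mul_cancel₀ M W1.ne', hK]
      gcongr
      linarith
    push Not at h
    obtain ⟨u, ⟨u1, u2⟩, u3⟩ := h
    have n : {w ∈ ball (0 : ℂ) 1 | ‖Θ w‖ < ε}.Nonempty := ⟨u, u2, u3⟩
    have n0 := infDist_nonneg (x := z) (s := {w ∈ ball (0 : ℂ) 1 | ‖Θ w‖ < ε})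
    refine ⟨_, n0, (infDist_le_dist_of_mem (by exact ⟨u2, u3⟩)).trans (mem_ball'.1 u1).le, fun w hw => not_lt.1
      fun e => (infDist_le_dist_of_mem (x := z) (show w ∈ {w ∈ ball (0 : ℂ) 1 | ‖Θ w‖ < ε} from
        ⟨hw.2, e⟩)).not_gt (mem_ball'.1 hw.1), ?_⟩
    obtain ⟨w, ⟨w1, w2⟩, w3⟩ := (infDist_lt_iff n).1 (lt_add_of_pos_right (infDist z _) t0)
    generalize infDist z _ = ρ at *
    rw [dist_eq_norm] at w3
    have b1 := (norm_sub_norm_le _ _).trans (hB z hz w w1 (2 * (ρ + t)) (by positivity) (by linarith))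
    have b2 := (hT w w1 w2).trans (mul_le_mul_of_nonneg_left (hW.mono _ (2 * (ρ + t))
      (sub_pos.2 (mem_ball_zero_iff.1 w1)) (by linarith [norm_sub_norm_le z w])) T0)
    have := hW.pos (2 * (ρ + t)) (by positivity)
    nlinarith [show 0 ≤ M / W 1 * W (2 * (ρ + t)) by positivity]
  have i0 := inv_pos.2 e0
  have c : (ρ + t) * ‖deriv Θ z‖ ≤ 128 * (1 + ε⁻¹) := by
    rcases le_or_gt ρ (33 * t) with h | h
    · have := cau1 td h1 hz
      nlinarith [norm_nonneg (deriv Θ z)]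
    obtain ⟨θ, -, e⟩ := polar z
    have b : ‖z - ex θ‖ = t := by
      nth_rw 1 [e]
      rw [← sub_one_mul, norm_mul, ex_norm, mul_one, ← ofReal_one, ← ofReal_sub, norm_real,
        Real.norm_of_nonpos (by linarith), neg_sub, ht]
    obtain ⟨g, g1, g2, g3⟩ := cont' td h1 hl (ex_norm θ) (d := ρ / 2) (by linarith) (by linarith) e0
      fun w hw => a w ⟨ball_subset_ball' (by rw [dist_comm, dist_eq_norm]; linarith) hw.1, hw.2⟩
    have s : ball z (ρ / 32) ⊆ ball (ex θ) (ρ / 2 / 8) := ball_subset_ball' (by rw [dist_eq_norm]; linarith)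
    have := cau (by linarith) (g1.mono s) fun w hw => g3 w (s hw)
    rw [Filter.EventuallyEq.deriv_eq (((isOpen_ball.inter isOpen_ball).eventually_mem
      ⟨s (mem_ball_self (by linarith)), hz⟩).mono g2)] at this
    nlinarith [norm_nonneg (deriv Θ z)]
  have d := ad t (2 * (ρ + t)) t0 (by linarith)
  have Wt := hW.pos t t0
  have e : t * (‖f z‖ * ‖deriv Θ z‖) ≤ K * (128 * (1 + ε⁻¹)) * (2 * C) * W t := by
    have b1 : t * ‖f z‖ ≤ K * (2 * C) * W t * (ρ + t) := by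
      nlinarith [mul_le_mul_of_nonneg_left b t0.le, mul_le_mul_of_nonneg_left d K0]
    nlinarith [mul_le_mul_of_nonneg_right b1 (norm_nonneg (deriv Θ z)),
      mul_le_mul_of_nonneg_left c (show 0 ≤ K * (2 * C) * W t by positivity)]
  rw [deriv_mul (hd.differentiableAt (isOpen_ball.mem_nhds hz)) (td.differentiableAt (isOpen_ball.mem_nhds hz))]
  have := hA z hz
  rw [← ht] at this ⊢
  have b2 := mul_le_mul_of_nonneg_left (norm_add_le (deriv f z * Θ z) (f z * deriv Θ z)) t0.le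
  rw [norm_mul, norm_mul] at b2
  nlinarith [mul_le_mul_of_nonneg_left (h1 z hz) (mul_nonneg t0.le (norm_nonneg (deriv f z)))]

end Pool.Agent.H.MP_3bea3b_an
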