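import Pool.Agent.H.MP_3bea3b_an.A

open Filter Topology Metric Set Complex ComplexConjugate Polynomial

namespace Pool.Agent.H.MP_3bea3b_an

noncomputable def ze (N : ℕ) : ℂ := exp (2 * Real.pi * I / N)

lemma ze_norm (N k : ℕ) : ‖ze N ^ k‖ = 1 := by
  rw [norm_pow, ze, show 2 * Real.pi * I / N = (2 * Real.pi / N : ℝ) * I by push_cast; ring,
    norm_exp_ofReal_mul_I, one_pow]

lemma av (F : ℂ[X]) : ∀ᶠ N : ℕ in atTop, ∑ k ∈ Finset.range N, F.eval (ze N ^ k) = N * F.eval 0 := by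
  induction F using Polynomial.induction_on' with
  | add p q hp hq => filter_upwards [hp, hq] with N h1 h2; simp [Finset.sum_add_distrib, h1, h2, mul_add]
  | monomial j a =>
    rcases j.eq_zero_or_pos with rfl | hj
    · simp
    filter_upwards [eventually_gt_atTop j] with N hN
    have h : IsPrimitiveRoot (ze N) N := isPrimitiveRoot_exp N (by omega)
    simp only [eval_monomial, ← Finset.mul_sum, ← pow_mul, mul_comm _ j, zero_pow hj.ne', mul_zero]
    simp only [pow_mul]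
    rw [geom_sum_eq (h.pow_ne_one_of_pos_of_lt hj.ne' hN), ← pow_mul, mul_comm j, pow_mul, h.pow_eq_one]
    simp

def Av (g : ℂ → ℝ) (c : ℝ) : Prop := ∀ᶠ N : ℕ in atTop, ∑ k ∈ Finset.range N, g (ze N ^ k) = N * c

structure St (δ c a b : ℝ) (H : ℂ[X]) : Prop where
  h0 : H.eval 0 = 1
  pos : ∀ z ∈ closedBall (0 : ℂ) 1, 0 < (H.eval z).re
  bl : ∀ z ∈ closedBall (0 : ℂ) 1, (1 - ‖z‖ ^ 2) * ‖H.derivative.eval z‖ ≤ c * δ * (H.eval z).re
  q : ∃ (Q : ℂ[X]) (d : ℕ), ∀ z : ℂ, ‖z‖ = 1 → Q.eval z = z ^ d * (H.eval z).re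
  a2 : Av (fun z => (H.eval z).re ^ 2) a
  a3 : Av (fun z => (H.eval z).re ^ 3) b

lemma pw {r : ℝ} (h0 : 0 ≤ r) (h1 : r ≤ 1) (N : ℕ) : (1 - r) * ((N + 1) * r ^ N) ≤ 1 - r ^ (N + 1) := by
  induction N with
  | zero => simp
  | succ N ih =>
    have : 0 ≤ (1 - r) * ((N + 1) * r ^ N) := mul_nonneg (by linarith) (by positivity)
    push_cast
    rw [pow_succ r (N + 1), pow_succ r N] at *
    nlinarith

lemma bd (F : ℂ[X]) : ∃ L, 0 < L ∧ ∀ z ∈ closedBall (0 : ℂ) 1, ‖F.eval z‖ ≤ L :=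
  let ⟨L, h⟩ := (isCompact_closedBall 0 1).exists_bound_of_continuousOn F.continuous.continuousOn
  ⟨|L| + 1, by positivity, fun z hz => (h z hz).trans (by linarith [le_abs_self L])⟩

lemma in1 {δ c c' m u u' e D D' s s' : ℝ} (d0 : 0 < δ) (d1 : δ ≤ 1 / 4) (c0 : 12 ≤ c) (c1 : c < c')
    (c2 : c' ≤ 13) (m0 : 0 < m) (f3 : e * D' ≤ e * (D + δ * s')) (f4 : u - δ * s ≤ u') (f5 : m ≤ u)
    (f6 : e * D ≤ c * δ * u) (g4 : s ≤ (c' - c) * m / 5) (g5 : e * s' ≤ (c' - c) * m / 5) :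
    0 < u' ∧ e * D' ≤ c' * δ * u' := by
  have g6 : 0 ≤ (c' - c) * m / 5 := by nlinarith
  have g7 : (c' - c) * m ≤ (c' - c) * u := by nlinarith
  have g8 : (c' - c) * m ≤ m := by nlinarith
  have g9 := mul_le_mul_of_nonneg_left g4 d0.le
  have g10 : δ * ((c' - c) * m / 5) ≤ (c' - c) * m / 20 := by nlinarith
  refine ⟨by linarith, ?_⟩
  have g11 : c * u + (c' - c) * m / 5 ≤ c' * u' := by nlinarith
  nlinarith [mul_le_mul_of_nonneg_left g11 d0.le, mul_le_mul_of_nonneg_left g5 d0.le]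

lemma out1 {δ c' m u u' e D D' s s' : ℝ} (d0 : 0 < δ) (d1 : δ ≤ 1 / 4) (c0 : 12 ≤ c') (m0 : 0 < m)
    (f3 : e * D' ≤ e * (D + δ * s')) (f4 : u - δ * s ≤ u') (f5 : m ≤ u) (g3 : s ≤ 2 * u)
    (g6 : e * D ≤ δ * m) (g7 : e * s' ≤ m + 4 * u) : 0 < u' ∧ e * D' ≤ c' * δ * u' := by
  have g9 : u / 2 ≤ u' := by nlinarith [mul_le_mul_of_nonneg_left g3 d0.le]
  refine ⟨by linarith, ?_⟩
  have g11 : 2 * m + 4 * u ≤ c' * u' := by nlinarith
  nlinarith [mul_le_mul_of_nonneg_left g11 d0.le, mul_le_mul_of_nonneg_left g7 d0.le]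

lemma St.step {δ c c' a b : ℝ} {H : ℂ[X]} (h : St δ c a b H) (d0 : 0 < δ) (d1 : δ ≤ 1 / 4) (c0 : 12 ≤ c)
    (c1 : c < c') (c2 : c' ≤ 13) : ∃ H', St δ c' (a * (1 + δ ^ 2 / 2)) (b * (1 + 3 * δ ^ 2 / 2)) H' := by
  obtain ⟨Q, d, hQ⟩ := h.q
  have uc : Continuous fun z => (H.eval z).re := continuous_re.comp H.continuous
  obtain ⟨z0, z1, z2⟩ := (isCompact_closedBall (0 : ℂ) 1).exists_isMinOn (nonempty_closedBall.2 zero_le_one)
    uc.continuousOn
  obtain ⟨m, hm⟩ : ∃ m, m = (H.eval z0).re := ⟨_, rfl⟩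
  have m0 : 0 < m := hm ▸ h.pos z0 z1
  replace z2 : ∀ z ∈ closedBall (0 : ℂ) 1, m ≤ (H.eval z).re := fun z hz => hm ▸ z2 hz
  obtain ⟨L1, l1, k1⟩ := bd H.derivative
  obtain ⟨L2, l2, k2⟩ := bd Q
  obtain ⟨L3, l3, k3⟩ := bd Q.derivative
  obtain ⟨ρ0, r1, r2⟩ := exists_lt_subset_ball (x := (0 : ℂ)) (r := 1)
    (s := closedBall 0 1 ∩ {z | 2 * (H.eval z).re ≤ ‖Q.eval z‖}) (isClosed_closedBall.inter
      (isClosed_le (by fun_prop) Q.continuous.norm)) fun z ⟨e1, e2⟩ => mem_ball_zero_iff.2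
        ((mem_closedBall_zero_iff.1 e1).lt_of_ne fun e => by
          have := h.pos z e1
          rw [mem_ofPred_eq, hQ z e, norm_mul, norm_pow, e, norm_real, Real.norm_of_nonneg this.le,
            one_pow] at e2
          linarith)
  obtain ⟨ρ, ⟨⟨p1, p2⟩, p3, p4⟩, p5⟩ := (((((lt_mem_nhds r1).and (lt_mem_nhds one_pos)).and
    (((show Continuous fun ρ : ℝ => 2 * (1 - ρ) * L1 by fun_prop).tendsto' 1 0 (by simp)).eventually_lt_const
      (mul_pos d0 m0) |>.and (((show Continuous fun ρ : ℝ => 2 * (1 - ρ) * L3 by fun_prop).tendsto' 1 0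
        (by simp)).eventually_lt_const m0))).filter_mono (nhdsWithin_le_nhds (s := Iio 1))).and
    self_mem_nhdsWithin).exists
  obtain ⟨N, n1, n2⟩ := (((((tendsto_self_mul_const_pow_of_lt_one p2.le p5).add
    (tendsto_pow_atTop_nhds_zero_of_lt_one p2.le p5)).mul_const L2).add
    ((tendsto_pow_atTop_nhds_zero_of_lt_one p2.le p5).mul_const L3)).eventually_lt_const
      (show _ < (c' - c) * m / 5 by simpa using mul_pos (sub_pos.2 c1) m0) |>.and
        (eventually_gt_atTop (3 * d))).exists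
  obtain ⟨H', hH⟩ : ∃ H', H' = H + C (δ : ℂ) * (X ^ (N + 1) * Q) := ⟨_, rfl⟩
  have e1 : ∀ z, (H'.eval z).re = (H.eval z).re + δ * (z ^ (N + 1) * Q.eval z).re := fun z => by
    simp [hH]
  have e2 : ∀ z ∈ closedBall (0 : ℂ) 1, ‖H'.derivative.eval z‖ ≤ ‖H.derivative.eval z‖ +
      δ * ((N + 1) * ‖z‖ ^ N * ‖Q.eval z‖ + ‖z‖ ^ N * L3) := fun z hz => by
    simp only [hH, derivative_add, derivative_C, derivative_mul, derivative_X_pow_succ, eval_add,
      eval_mul, eval_C, eval_pow, eval_X, zero_mul, zero_add]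
    refine (norm_add_le _ _).trans (add_le_add le_rfl ?_)
    rw [norm_mul, norm_real, Real.norm_of_nonneg d0.le]
    refine mul_le_mul_of_nonneg_left ((norm_add_le _ _).trans (add_le_add ?_ ?_)) d0.le
    · rw [norm_mul, norm_mul, norm_pow, ← Nat.cast_add_one, norm_natCast, Nat.cast_add_one]
    · rw [norm_mul, norm_pow]
      exact mul_le_mul (pow_le_pow_of_le_one (norm_nonneg _) (mem_closedBall_zero_iff.1 hz) N.le_succ)
        (k3 z hz) (norm_nonneg _) (by positivity)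
  have e3 : ∀ z ∈ closedBall (0 : ℂ) 1, (H.eval z).re - δ * (‖z‖ ^ N * ‖Q.eval z‖) ≤ (H'.eval z).re :=
    fun z hz => by
      have k := (abs_le.1 (abs_re_le_norm (z ^ (N + 1) * Q.eval z))).1
      rw [norm_mul, norm_pow] at k
      have := mul_le_mul_of_nonneg_right (pow_le_pow_of_le_one (norm_nonneg _)
        (mem_closedBall_zero_iff.1 hz) (N.le_add_right 1)) (norm_nonneg (Q.eval z))
      rw [e1]
      linarith [mul_le_mul_of_nonneg_left ((neg_le_neg this).trans k) d0.le]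
  have e4 : ∀ z ∈ closedBall (0 : ℂ) 1, 0 < (H'.eval z).re ∧
      (1 - ‖z‖ ^ 2) * ‖H'.derivative.eval z‖ ≤ c' * δ * (H'.eval z).re := fun z hz => by
    have f1 := mem_closedBall_zero_iff.1 hz
    have f0 := norm_nonneg z
    have f2 : 0 ≤ 1 - ‖z‖ ^ 2 := sub_nonneg.2 (pow_le_one₀ f0 f1)
    have f3 := mul_le_mul_of_nonneg_left (e2 z hz) f2
    have f4 := e3 z hz
    have f5 := z2 z hz
    have f6 := h.bl z hz
    have f7 := norm_nonneg (Q.eval z)
    have g1 : ρ ≤ ‖z‖ → ‖Q.eval z‖ ≤ 2 * (H.eval z).re := fun g => not_lt.1 fun e =>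
      (mem_ball_zero_iff.1 (r2 ⟨hz, e.le⟩)).not_ge (p1.le.trans g)
    rcases le_total ‖z‖ ρ with g | g
    · have g1 := pow_le_pow_left₀ f0 g N
      have g2 : ‖z‖ ^ N * ‖Q.eval z‖ ≤ ρ ^ N * L2 := mul_le_mul g1 (k2 z hz) f7 (by positivity)
      have g3 : (N + 1) * ‖z‖ ^ N * ‖Q.eval z‖ + ‖z‖ ^ N * L3 ≤ (c' - c) * m / 5 := by
        linarith [mul_le_mul_of_nonneg_left g2 N.cast_nonneg, mul_le_mul_of_nonneg_right g1 l3.le]
      have g4 : ‖z‖ ^ N * ‖Q.eval z‖ ≤ (c' - c) * m / 5 := by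
        linarith [show 0 ≤ N * ρ ^ N * L2 by positivity, show 0 ≤ ρ ^ N * L3 by positivity]
      have g5 : (1 - ‖z‖ ^ 2) * ((N + 1) * ‖z‖ ^ N * ‖Q.eval z‖ + ‖z‖ ^ N * L3) ≤ (c' - c) * m / 5 :=
        (mul_le_of_le_one_left (by positivity) (sub_le_self _ (sq_nonneg _))).trans g3
      exact in1 d0 d1 c0 c1 c2 m0 f3 f4 f5 f6 g4 g5
    · have g2 := pow_le_one₀ f0 f1 (n := N)
      have g3 : ‖z‖ ^ N * ‖Q.eval z‖ ≤ 2 * (H.eval z).re := (mul_le_of_le_one_left f7 g2).trans (g1 g)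
      have g4 : 1 - ‖z‖ ^ 2 ≤ 2 * (1 - ρ) := by linarith [sq_nonneg (1 - ‖z‖)]
      have g5 : (1 - ‖z‖ ^ 2) * ((N + 1) * ‖z‖ ^ N) ≤ 2 := by
        have := pw f0 f1 N
        have : 0 ≤ (1 - ‖z‖) * ((N + 1) * ‖z‖ ^ N) := mul_nonneg (by linarith) (by positivity)
        linarith [pow_nonneg f0 (N + 1), mul_le_mul_of_nonneg_left f1 this]
      have g6 : (1 - ‖z‖ ^ 2) * ‖H.derivative.eval z‖ ≤ δ * m :=
        (mul_le_mul g4 (k1 z hz) (norm_nonneg _) (by linarith)).trans p3.le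
      have g7 : (1 - ‖z‖ ^ 2) * (‖z‖ ^ N * L3) ≤ m :=
        (mul_le_mul g4 (mul_le_of_le_one_left l3.le g2) (by positivity) (by linarith)).trans p4.le
      have g8 := mul_le_mul g5 (g1 g) f7 zero_le_two
      exact out1 d0 d1 (c0.trans c1.le) m0 f3 f4 f5 g3 g6 (by linarith)
  have e5 : ∀ z : ℂ, ‖z‖ = 1 → (H'.eval z).re = (H.eval z).re * (1 + δ * (z ^ (N + 1 + d)).re) :=
    fun z hz => by rw [e1, hQ z hz, ← mul_assoc, ← pow_add, mul_re, ofReal_re, ofReal_im]; ring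
  have e6 : ∀ k j : ℕ, k ≤ 3 → 0 < j → Av (fun z => (H.eval z).re ^ k * ((z ^ (N + 1 + d)) ^ j).re) 0 :=
    fun k j hk hj => by
      obtain ⟨i, hi⟩ : ∃ i, (N + 1 + d) * j = i + 1 + d * k := ⟨(N + 1 + d) * j - 1 - d * k, by
        have := Nat.mul_le_mul_left d hk
        have := Nat.le_mul_of_pos_right (N + 1 + d) hj
        omega⟩
      filter_upwards [av (X ^ (i + 1) * Q ^ k)] with n hn
      have := congrArg re hn
      simp only [eval_mul, eval_pow, eval_X, re_sum, hQ _ (ze_norm _ _)] at this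
      rw [zero_pow i.succ_ne_zero, zero_mul, mul_zero, zero_re] at this
      rw [mul_zero, ← this]
      refine Finset.sum_congr rfl fun l _ => ?_
      rw [← pow_mul _ _ j, hi, pow_add _ (i + 1), mul_pow, ← pow_mul _ d, ← mul_assoc, ← ofReal_pow,
        re_mul_ofReal, mul_comm]
  have e7 : ∀ w : ℂ, ‖w‖ = 1 → w.re ^ 2 + w.im ^ 2 = 1 := fun w hw => by
    rw [← one_pow 2, ← hw, ← normSq_eq_norm_sq, normSq_apply]; ring
  refine ⟨H', by simp [hH, h.h0], fun z hz => (e4 z hz).1, fun z hz => (e4 z hz).2,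
    ⟨Q * (X ^ (N + 1 + d) + C (δ / 2 : ℂ) * ((X ^ (N + 1 + d)) ^ 2 + 1)), d + (N + 1 + d),
      fun z hz => ?_⟩, ?_, ?_⟩
  · have := e7 (z ^ (N + 1 + d)) (by rw [norm_pow, hz, one_pow])
    simp only [eval_mul, eval_add, eval_pow, eval_X, eval_C, eval_one, hQ z hz, e5 z hz, pow_add z d]
    generalize z ^ (N + 1 + d) = w at *
    have e : w ^ 2 + 1 = 2 * w * w.re := by
      apply Complex.ext <;> simp [sq] <;> nlinarith
    rw [e]; push_cast; ring
  · filter_upwards [h.a2, e6 2 1 (by omega) one_pos, e6 2 2 (by omega) two_pos] with n g1 g2 g3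
    rw [show n * (a * (1 + δ ^ 2 / 2)) = (1 + δ ^ 2 / 2) * (n * a) + 2 * δ * (n * 0) + δ ^ 2 / 2 * (n * 0)
      by ring, ← g1]
    nth_rw 1 [← g2]
    simp only [← g3, Finset.mul_sum, ← Finset.sum_add_distrib]
    refine Finset.sum_congr rfl fun l _ => ?_
    have := e7 ((ze n ^ l) ^ (N + 1 + d)) (by rw [norm_pow, ze_norm, one_pow])
    rw [e5 _ (ze_norm _ _)]
    generalize (ze n ^ l) ^ (N + 1 + d) = w at *
    simp only [pow_one, sq w, mul_re]
    linear_combination (δ ^ 2 / 2 * (H.eval (ze n ^ l)).re ^ 2) * this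
  · filter_upwards [h.a3, e6 3 1 le_rfl one_pos, e6 3 2 le_rfl two_pos, e6 3 3 le_rfl (by omega)]
      with n g1 g2 g3 g4
    rw [show n * (b * (1 + 3 * δ ^ 2 / 2)) = (1 + 3 * δ ^ 2 / 2) * (n * b) + (3 * δ + 3 * δ ^ 3 / 4) *
      (n * 0) + 3 * δ ^ 2 / 2 * (n * 0) + δ ^ 3 / 4 * (n * 0) by ring, ← g1]
    nth_rw 1 [← g2]
    nth_rw 1 [← g3]
    simp only [← g4, Finset.mul_sum, ← Finset.sum_add_distrib]
    refine Finset.sum_congr rfl fun l _ => ?_
    have := e7 ((ze n ^ l) ^ (N + 1 + d)) (by rw [norm_pow, ze_norm, one_pow])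
    rw [e5 _ (ze_norm _ _)]
    generalize (ze n ^ l) ^ (N + 1 + d) = w at *
    simp only [pow_one, sq w, pow_succ w 2, mul_re, mul_im]
    linear_combination (3 * δ ^ 2 / 2 * (H.eval (ze n ^ l)).re ^ 3 +
      3 * δ ^ 3 / 4 * (H.eval (ze n ^ l)).re ^ 3 * w.re) * this

lemma core {δ : ℝ} (d0 : 0 < δ) (d1 : δ ≤ 1 / 4) (m : ℕ) :
    ∃ H, St δ (13 - 1 / (m + 1)) ((1 + δ ^ 2 / 2) ^ m) ((1 + 3 * δ ^ 2 / 2) ^ m) H := by
  induction m with
  | zero => exact ⟨1, by simp, by simp, fun z _ => by simpa using by positivity, ⟨1, 0, by simp⟩,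
      by simp [Av], by simp [Av]⟩
  | succ m ih =>
    obtain ⟨H, h⟩ := ih
    rw [pow_succ, pow_succ (1 + 3 * δ ^ 2 / 2)]
    refine h.step d0 d1 ?_ (sub_lt_sub_left (one_div_lt_one_div_of_lt (by positivity) (by simp)) _)
      (sub_le_self _ (by positivity))
    linarith [(div_le_one (by positivity)).2 (show (1 : ℝ) ≤ m + 1 by simp)]

lemma bern {x : ℝ} (h0 : 0 ≤ x) (h1 : x ≤ 1) (n : ℕ) : (1 - x) ^ n * (1 + n * x) ≤ 1 :=
  (mul_le_mul_of_nonneg_left (one_add_mul_le_pow (by linarith) n) (pow_nonneg (by linarith) n)).trans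
    (by rw [← mul_pow]; exact pow_le_one₀ (by nlinarith) (by nlinarith))

noncomputable def bf (a w : ℂ) : ℂ := (w - a) / (1 - conj a * w)

lemma ring {N : ℕ} (hN : 0 < N) {r : ℝ} (hr : r = 1 - 1 / (2 * N)) {Z : Finset ℕ} (hZ : Z ⊆ Finset.range N)
    {w : ℂ} (hw : ‖w‖ < 1) (h : ‖∏ k ∈ Z, bf (ze N ^ k * r) w‖ < 1 / 100) :
    ∃ k ∈ Z, ‖w - ze N ^ k * r‖ ≤ 1 / (4 * N) := by
  have : NeZero N := ⟨hN.ne'⟩
  have hz : IsPrimitiveRoot (ze N) N := isPrimitiveRoot_exp N hN.ne'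
  have N0 : (0 : ℝ) < N := by positivity
  have x0 : (0 : ℝ) < 1 / (2 * N) := by positivity
  have x1 : (1 : ℝ) / (2 * N) ≤ 1 / 2 := one_div_le_one_div_of_le two_pos (by
    linarith [show (1 : ℝ) ≤ N by exact_mod_cast hN])
  have r0 : 0 < r := by linarith
  have r1 : r < 1 := by linarith
  have r2 : 1 / 2 ≤ r ^ N := by
    have := one_add_mul_le_pow (a := -(1 / (2 * N) : ℝ)) (by linarith) N
    rw [← sub_eq_add_neg, ← hr] at this
    exact this.trans_eq' (by field_simp; ring)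
  have r3 : r ^ N ≤ 1 := pow_le_one₀ r0.le r1.le
  have a1 : ∀ k, ‖ze N ^ k * r‖ = r := fun k => by
    rw [norm_mul, ze_norm, one_mul, norm_real, Real.norm_of_nonneg r0.le]
  have p1 := X_pow_sub_C_eq_prod hz hN (rfl : (r : ℂ) ^ N = _)
  have p2 : ‖∏ k ∈ Finset.range N, (1 - conj (ze N ^ k * r) * w)‖ ≤ 2 := by
    have := congrArg (fun p => conj (p.eval 1)) (X_pow_sub_C_eq_prod hz hN (rfl : (r * conj w : ℂ) ^ N = _))
    simp only [eval_prod, eval_sub, eval_X, eval_C, eval_pow, one_pow] at this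
    simp only [map_prod, map_sub, map_mul, conj_conj, map_one, ← mul_assoc] at this
    simp only [map_mul]
    rw [← this]
    refine (norm_sub_le _ _).trans ?_
    rw [norm_conj, norm_pow, norm_mul, norm_conj, norm_real, Real.norm_of_nonneg r0.le, norm_one]
    linarith [pow_le_one₀ (n := N) (mul_nonneg r0.le (norm_nonneg w)) (mul_le_one₀ r1.le (norm_nonneg w) hw.le)]
  have n0 : ∀ k, 0 < ‖1 - conj (ze N ^ k * r) * w‖ := fun k =>
    norm_pos_iff.2 (MP_32de40_an.mne ((a1 k).trans_lt r1) hw.le)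
  have b1 : ∀ S, Z ⊆ S → ‖∏ k ∈ S, (w - ze N ^ k * r)‖ <
      1 / 100 * ‖∏ k ∈ S, (1 - conj (ze N ^ k * r) * w)‖ := fun S hS => by
    rw [← div_lt_iff₀ (by rw [norm_prod]; exact Finset.prod_pos fun k _ => n0 k), ← norm_div,
      ← Finset.prod_div_distrib]
    refine lt_of_le_of_lt ?_ h
    rw [norm_prod, norm_prod]
    exact Finset.prod_le_prod_of_subset_of_le_one hS (fun _ _ => norm_nonneg _)
      fun k _ _ => MP_32de40_an.mle ((a1 k).trans_lt r1) hw.le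
  have rc : (r : ℂ) ^ N ≠ 0 := pow_ne_zero _ (ofReal_ne_zero.2 r0.ne')
  have b2 : ‖w ^ N / r ^ N - 1‖ ≤ 1 / 25 := by
    have := congrArg (fun p => p.eval w) p1
    simp only [eval_prod, eval_sub, eval_X, eval_C, eval_pow, ← C_pow] at this
    have k := b1 _ hZ
    rw [← this] at k
    rw [div_sub_one rc, norm_div, norm_pow, norm_real, Real.norm_of_nonneg r0.le, div_le_iff₀ (by positivity)]
    linarith
  have b3 := norm_log_one_add_half_le_self (b2.trans (by norm_num))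
  rw [add_sub_cancel] at b3
  have b4 : w ^ N / r ^ N ≠ 0 := fun e => by norm_num [e] at b2
  obtain ⟨s, hs⟩ : ∃ s, s = log (w ^ N / r ^ N) / N := ⟨_, rfl⟩
  have s1 : N * ‖s‖ ≤ 3 / 50 := by
    rw [hs, norm_div, Complex.norm_natCast, mul_div_cancel₀ _ N0.ne']; linarith
  have s2 : ∀ i : ℕ, i ≤ N → ‖exp s ^ i - 1‖ ≤ 2 * (i * ‖s‖) := fun i hi => by
    have := mul_le_mul_of_nonneg_right (Nat.cast_le (α := ℝ).2 hi) (norm_nonneg s)
    rw [← exp_nat_mul, ← Complex.norm_natCast, ← norm_mul]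
    exact norm_exp_sub_one_le (by rw [norm_mul, Complex.norm_natCast]; linarith)
  obtain ⟨k, k1, k2⟩ := hz.eq_pow_of_pow_eq_one (ξ := w / (r * exp s)) (by
    rw [div_pow, mul_pow, ← exp_nat_mul, hs, mul_div_cancel₀ _ (Nat.cast_ne_zero.2 hN.ne'), exp_log b4,
      mul_div_cancel₀ _ rc, div_self (left_ne_zero_of_mul (div_eq_mul_inv (w ^ N) _ ▸ b4))])
  obtain ⟨a, ha⟩ : ∃ a, a = ze N ^ k * r := ⟨_, rfl⟩
  have k3 : w = a * exp s := by
    rw [ha, k2, mul_assoc, div_mul_cancel₀ _ (mul_ne_zero (ofReal_ne_zero.2 r0.ne') (exp_ne_zero _))]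
  refine ⟨k, by_contra fun kz => ?_, ?_⟩
  · have c1 : ∏ j ∈ (Finset.range N).erase k, (X - C (ze N ^ j * r)) =
        ∑ i ∈ Finset.range N, X ^ i * C a ^ (N - 1 - i) := mul_right_cancel₀ (X_sub_C_ne_zero a) (by
      rw [geom_sum₂_mul, ha, Finset.prod_erase_mul _ _ (Finset.mem_range.2 k1), ← p1, ← C_pow, mul_pow,
        ← pow_mul, mul_comm k, pow_mul, hz.pow_eq_one, one_pow, one_mul])
    have c2 := congrArg (fun p => p.eval w) c1
    simp only [eval_prod, eval_sub, eval_X, eval_C, eval_pow, eval_finset_sum, eval_mul] at c2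
    have c3 : ∑ i ∈ Finset.range N, w ^ i * a ^ (N - 1 - i) =
        a ^ (N - 1) * (N + ∑ i ∈ Finset.range N, (exp s ^ i - 1)) := by
      rw [Finset.sum_sub_distrib, Finset.sum_const, Finset.card_range, nsmul_one, add_sub_cancel,
        Finset.mul_sum]
      refine Finset.sum_congr rfl fun i hi => ?_
      rw [k3, mul_pow, mul_right_comm, ← pow_add, Nat.add_sub_cancel' (by
        have := Finset.mem_range.1 hi; omega)]
    have c4 : ‖∑ i ∈ Finset.range N, (exp s ^ i - 1)‖ ≤ N / 2 := (norm_sum_le _ _).trans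
      ((Finset.sum_le_card_nsmul _ _ (1 / 2) fun i hi => (s2 i (Finset.mem_range.1 hi).le).trans (by
        have := mul_le_mul_of_nonneg_right (Nat.cast_le (α := ℝ).2 (Finset.mem_range.1 hi).le) (norm_nonneg s)
        linarith)).trans_eq (by simp; ring))
    have c5 := norm_sub_norm_le (N : ℂ) (-∑ i ∈ Finset.range N, (exp s ^ i - 1))
    rw [sub_neg_eq_add, norm_neg, Complex.norm_natCast] at c5
    have c6 := b1 ((Finset.range N).erase k) (Finset.subset_erase.2 ⟨hZ, kz⟩)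
    rw [← Finset.prod_erase_mul _ _ (Finset.mem_range.2 k1), norm_mul] at p2
    rw [c2, c3, norm_mul, norm_pow, ha, a1] at c6
    have c7 := MP_32de40_an.mge (ze N ^ k * r) hw.le
    rw [a1] at c7
    have c8 := r2.trans (pow_le_pow_of_le_one r0.le r1.le (N.sub_le 1))
    have c9 := (mul_le_mul_of_nonneg_left c7 (norm_nonneg _)).trans p2
    rw [hr, sub_sub_cancel, mul_one_div, div_le_iff₀ (by positivity), ← hr] at c9
    linarith [mul_le_mul c8 ((by linarith : (N : ℝ) / 2 ≤ N - N / 2).trans ((sub_le_sub_left c4 _).trans c5))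
      (by positivity) (by positivity)]
  · have := s2 1 hN
    rw [← ha, k3, ← mul_sub_one, norm_mul, ha, a1, le_div_iff₀ (by positivity)]
    rw [pow_one, Nat.cast_one, one_mul] at this
    nlinarith [mul_le_mul r1.le this (norm_nonneg _) zero_le_one]

end Pool.Agent.H.MP_3bea3b_an
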