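import Pool.Agent.H.MP_3bea3b_an.B

open Filter Topology Metric Set Complex ComplexConjugate Polynomial
open Pool.Agent.H.MP_32de40_an

namespace Pool.Agent.H.MP_3bea3b_an

def Nice (g : ℂ → ℂ) : Prop := ∃ R, 1 < R ∧ DifferentiableOn ℂ g (ball 0 R)

lemma Nice.at {g : ℂ → ℂ} (h : Nice g) {z : ℂ} (hz : z ∈ closedBall (0 : ℂ) 1) : DifferentiableAt ℂ g z :=
  let ⟨_, h1, h2⟩ := h; h2.differentiableAt (isOpen_ball.mem_nhds (closedBall_subset_ball h1 hz))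

lemma Nice.lip {g : ℂ → ℂ} (h : Nice g) : ∃ L, 0 < L ∧ (∀ z ∈ closedBall (0 : ℂ) 1, ‖deriv g z‖ ≤ L) ∧
    ∀ z ∈ closedBall (0 : ℂ) 1, ∀ w ∈ closedBall (0 : ℂ) 1, ‖g z - g w‖ ≤ L * ‖z - w‖ := by
  obtain ⟨L, hL⟩ := (isCompact_closedBall (0 : ℂ) 1).exists_bound_of_continuousOn
    ((h.choose_spec.2.deriv isOpen_ball).continuousOn.mono (closedBall_subset_ball h.choose_spec.1))
  have k : ∀ z ∈ closedBall (0 : ℂ) 1, ‖deriv g z‖ ≤ |L| + 1 := fun z hz =>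
    (hL z hz).trans (by linarith [le_abs_self L])
  exact ⟨_, by positivity, k, fun z hz w hw => (convex_closedBall _ _).norm_image_sub_le_of_norm_deriv_le
    (fun x hx => h.at hx) k hw hz⟩

lemma Nice.rot {g : ℂ → ℂ} (h : Nice g) {u : ℂ} (hu : ‖u‖ = 1) (c : ℂ) : Nice fun z => g (u * z) - c :=
  let ⟨R, h1, h2⟩ := h
  ⟨R, h1, (h2.comp (by fun_prop) fun z hz => by simpa [hu] using hz).sub_const c⟩

lemma bf1 {a w : ℂ} (ha : ‖a‖ < 1) (hw : ‖w‖ = 1) : ‖bf a w‖ = 1 := by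
  have := mid2 ha hw.le
  rw [hw, one_pow, sub_self, mul_zero, zero_div, sub_eq_zero, eq_comm, pow_eq_one_iff_of_nonneg
    (norm_nonneg _) two_ne_zero] at this
  exact this

lemma pz {u : ℝ} (h : 0 < u) : u ^ 2 ≤ 2 * u + 125 ^ 2 * (if 2 ≤ u then 1 else 0) + u ^ 3 / 125 := by
  split_ifs with e
  · rcases le_total u 125 with e' | e' <;> nlinarith [pow_pos h 2, pow_pos h 3]
  · nlinarith [pow_pos h 3]

lemma loc (K : ℝ) : ∃ p B, Nice p ∧ Nice B ∧ (∀ w ∈ closedBall (0 : ℂ) 1, ‖B w‖ ≤ 1) ∧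
    (∀ w, ‖w‖ = 1 → ‖B w‖ = 1) ∧ (∀ w ∈ closedBall (0 : ℂ) 1, (1 - ‖w‖ ^ 2) * ‖deriv p w‖ ≤ 13) ∧ p 1 = 0 ∧
    K ≤ ‖p 0‖ ∧ ‖B 0‖ ≤ 31250 / 31251 ∧ ∀ w ∈ ball (0 : ℂ) 1, ‖B w‖ < 1 / 100 → ‖p w‖ ≤ 16 := by
  obtain ⟨k, hk⟩ : ∃ k, k = |K| + 2 := ⟨_, rfl⟩
  have k2 : 2 ≤ k := by linarith [abs_nonneg K]
  obtain ⟨T, hT⟩ : ∃ T, T = Real.log k := ⟨_, rfl⟩
  have T0 : 0 < T := hT ▸ Real.log_pos (by linarith)
  have T1 : Real.exp T = k := hT ▸ Real.exp_log (by linarith)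
  obtain ⟨δ, hδ⟩ : ∃ δ, δ = 1 / k ^ 2 := ⟨_, rfl⟩
  have d0 : 0 < δ := by rw [hδ]; positivity
  have d1 : δ ≤ 1 / 4 := hδ ▸ one_div_le_one_div_of_le four_pos (by nlinarith)
  obtain ⟨m, m1, m2⟩ := exists_nat_pow_near (x := (4 : ℝ)) (y := 1 + δ ^ 2 / 2) (by norm_num)
    (lt_add_of_pos_right _ (by positivity))
  obtain ⟨H, h⟩ := core d0 d1 (m + 1)
  have m3 : (1 + 3 * δ ^ 2 / 2) ^ (m + 1) ≤ 5 ^ 3 := (pow_le_pow_left₀ (by positivity)
    (show _ ≤ (1 + δ ^ 2 / 2) ^ 3 by nlinarith [sq_nonneg (δ ^ 2), pow_nonneg (sq_nonneg δ) 3]) _).trans (by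
      rw [← pow_mul, mul_comm, pow_mul]
      exact pow_le_pow_left₀ (by positivity) (by rw [pow_succ]; nlinarith) 3)
  obtain ⟨p, hp⟩ : ∃ p : ℂ → ℂ, p = fun z => exp (T * (2 - H.eval z)) := ⟨_, rfl⟩
  have p1 : ∀ z, HasDerivAt p (p z * (T * -H.derivative.eval z)) z := fun z =>
    hp ▸ (((H.hasDerivAt z).const_sub 2).const_mul _).cexp
  have p2 : ∀ z, ‖p z‖ = Real.exp (T * (2 - (H.eval z).re)) := fun z => by simp [hp, norm_exp]
  have p3 : Nice p := ⟨2, one_lt_two, fun z _ => (p1 z).differentiableAt.differentiableWithinAt⟩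
  have p4 : ∀ w ∈ closedBall (0 : ℂ) 1, (1 - ‖w‖ ^ 2) * ‖deriv p w‖ ≤ 13 := fun w hw => by
    have e1 := h.bl w hw
    have e2 := h.pos w hw
    rw [(p1 w).deriv, norm_mul, norm_mul, norm_neg, norm_real, Real.norm_of_nonneg T0.le, p2, mul_sub T,
      Real.exp_sub, mul_comm T 2, show (2 : ℝ) * T = (2 : ℕ) * T by simp, Real.exp_nat_mul, T1]
    have e3 := Real.add_one_le_exp (T * (H.eval w).re)
    have e4 : δ * k ^ 2 = 1 := by rw [hδ]; field_simp
    have e5 : (1 - ‖w‖ ^ 2) * ‖H.derivative.eval w‖ ≤ 13 * δ * (H.eval w).re := e1.trans (by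
      gcongr; exact sub_le_self _ (by positivity))
    rw [div_mul_eq_mul_div, ← mul_div_assoc, div_le_iff₀ (Real.exp_pos _)]
    have e6 := mul_le_mul_of_nonneg_left e5 (show 0 ≤ T * k ^ 2 by positivity)
    rw [show T * k ^ 2 * (13 * δ * (H.eval w).re) = 13 * (T * (H.eval w).re) * (δ * k ^ 2) by ring, e4] at e6
    linarith
  obtain ⟨L, L0, -, hL⟩ := p3.lip
  obtain ⟨N, ⟨n1, n2⟩, n3, n4⟩ := (((av H).and h.a2).and (h.a3.and
    (tendsto_natCast_atTop_atTop.eventually_ge_atTop L))).exists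
  have N0 : (0 : ℝ) < N := L0.trans_le n4
  have hN : 0 < N := by exact_mod_cast N0
  obtain ⟨Z, hZ⟩ : ∃ Z, Z = (Finset.range N).filter fun k => 2 ≤ (H.eval (ze N ^ k)).re := ⟨_, rfl⟩
  have em : ∀ k, ze N ^ k ∈ closedBall (0 : ℂ) 1 := fun k => mem_closedBall_zero_iff.2 (ze_norm N k).le
  have z1 : (N : ℝ) ≤ 125 ^ 2 * Z.card := by
    have e1 := congrArg re n1
    rw [re_sum, h.h0, mul_one, natCast_re] at e1
    have e2 : ∑ k ∈ Finset.range N, (H.eval (ze N ^ k)).re ^ 2 ≤ ∑ k ∈ Finset.range N,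
        (2 * (H.eval (ze N ^ k)).re + 125 ^ 2 * (if 2 ≤ (H.eval (ze N ^ k)).re then 1 else 0) +
          (H.eval (ze N ^ k)).re ^ 3 / 125) := Finset.sum_le_sum fun k _ => by
      exact pz (h.pos _ (em k))
    simp only [Finset.sum_add_distrib, ← Finset.mul_sum, ← Finset.sum_div, Finset.sum_boole, ← hZ] at e2
    rw [e1, n2, n3] at e2
    linarith [mul_le_mul_of_nonneg_left m3 N0.le, mul_le_mul_of_nonneg_left m2.le N0.le]
  obtain ⟨r, hr⟩ : ∃ r : ℝ, r = 1 - 1 / (2 * N) := ⟨_, rfl⟩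
  have x0 : (0 : ℝ) < 1 / (2 * N) := by positivity
  have x1 : (1 : ℝ) / (2 * N) ≤ 1 / 2 := one_div_le_one_div_of_le two_pos (by
    linarith [show (1 : ℝ) ≤ N by exact_mod_cast hN])
  have r0 : 0 < r := by linarith
  have r1 : r < 1 := by linarith
  have a1 : ∀ k, ‖ze N ^ k * r‖ = r := fun k => by
    rw [norm_mul, ze_norm, one_mul, norm_real, Real.norm_of_nonneg r0.le]
  have b1 : Nice fun w => ∏ k ∈ Z, bf (ze N ^ k * r) w := ⟨r⁻¹, one_lt_inv_iff₀.2 ⟨r0, r1⟩,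
    DifferentiableOn.fun_finsetProd fun k _ => DifferentiableOn.div (by fun_prop) (by fun_prop)
      fun w hw e => by
        have := congrArg norm (sub_eq_zero.1 e)
        rw [norm_mul, norm_conj, a1, norm_one] at this
        linarith [(lt_inv_mul_iff₀ r0).1 ((mem_ball_zero_iff.1 hw).trans_eq (mul_one _).symm)]⟩
  have z2 : ∀ k ∈ Z, ‖p (ze N ^ k)‖ ≤ 1 := fun k hk => by
    rw [hZ, Finset.mem_filter] at hk
    rw [p2, Real.exp_le_one_iff]
    exact mul_nonpos_of_nonneg_of_nonpos T0.le (sub_nonpos.2 hk.2)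
  obtain ⟨j, hj⟩ : Z.Nonempty := Finset.card_pos.1 (by
    have : (0 : ℝ) < Z.card := by linarith
    exact_mod_cast this)
  have j1 : ∀ w : ℂ, ‖ze N ^ j * w‖ = ‖w‖ := fun w => by rw [norm_mul, ze_norm, one_mul]
  refine ⟨_, _, p3.rot (ze_norm N j) (p (ze N ^ j)), b1.rot (ze_norm N j) 0, fun w hw => ?_,
    fun w hw => ?_, fun w hw => ?_, by simp, ?_, ?_, fun w hw e => ?_⟩
  · rw [sub_zero, norm_prod]
    exact Finset.prod_le_one (fun _ _ => norm_nonneg _) fun k _ => mle ((a1 k).trans_lt r1)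
      ((j1 w).trans_le (mem_closedBall_zero_iff.1 hw))
  · rw [sub_zero, norm_prod]
    exact Finset.prod_eq_one fun k _ => bf1 ((a1 k).trans_lt r1) ((j1 w).trans hw)
  · rw [deriv_sub_const, deriv_comp_mul_left, norm_smul, ze_norm, one_mul, ← j1 w]
    exact p4 _ (mem_closedBall_zero_iff.2 ((j1 w).trans_le (mem_closedBall_zero_iff.1 hw)))
  · have := norm_sub_norm_le (p (ze N ^ j * 0)) (p (ze N ^ j))
    rw [mul_zero, p2 0, h.h0, one_re, show T * (2 - 1) = T by ring, T1] at this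
    rw [mul_zero]
    linarith [z2 j hj, le_abs_self K]
  · have e : ∀ k, ‖bf (ze N ^ k * r) 0‖ = r := fun k => by
      rw [bf, mul_zero, sub_zero, div_one, zero_sub, norm_neg, a1]
    have := bern x0.le (by linarith) Z.card
    have e2 : (1 : ℝ) / 31250 ≤ Z.card * (1 / (2 * N)) := by
      rw [mul_one_div, div_le_div_iff₀ (by norm_num) (by positivity)]; linarith
    simp only [sub_zero, mul_zero, norm_prod, e, Finset.prod_const]
    rw [← hr] at this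
    linarith [mul_le_mul_of_nonneg_left e2 (pow_pos r0 Z.card).le]
  rw [sub_zero] at e
  obtain ⟨l, l1, l2⟩ := ring hN hr (hZ ▸ Finset.filter_subset _ _) ((j1 w).trans_lt
    (mem_ball_zero_iff.1 hw)) e
  have x2 : (1 : ℝ) / (2 * N) = 2 * (1 / (4 * N)) := by field_simp; ring
  have c1 := (convex_closedBall (ze N ^ l * r) (1 / (4 * N))).norm_image_sub_le_of_norm_deriv_le
    (f := p) (C := 13 * (4 * N)) (fun x _ => (p1 x).differentiableAt) (fun x hx => by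
      have f1 := norm_sub_norm_le x (ze N ^ l * r)
      rw [a1, ← dist_eq_norm] at f1
      have f2 : 1 / (4 * N) ≤ 1 - ‖x‖ := by linarith [mem_closedBall.1 hx]
      have f3 := p4 x (mem_closedBall_zero_iff.2 (by linarith))
      have f4 : 1 / (4 * N) ≤ 1 - ‖x‖ ^ 2 := f2.trans (sub_le_sub_left (pow_le_of_le_one (norm_nonneg x)
        (by linarith) two_ne_zero) _)
      rw [← div_le_iff₀ (by positivity), div_eq_mul_one_div]
      linarith [mul_le_mul_of_nonneg_right f4 (norm_nonneg (deriv p x))]) (mem_closedBall_self (by positivity))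
    (mem_closedBall_iff_norm.2 l2)
  have c2 := hL _ (mem_closedBall_zero_iff.2 ((a1 l).trans_le r1.le)) _ (em l)
  rw [← mul_sub_one, norm_mul, ze_norm, one_mul, ← ofReal_one, ← ofReal_sub, norm_real,
    Real.norm_of_nonpos (by linarith)] at c2
  have c3 : L * -(r - 1) ≤ 1 := by
    rw [hr, sub_sub_cancel_left, neg_neg, mul_one_div, div_le_one (by positivity)]; linarith
  have c4 := c1.trans (mul_le_mul_of_nonneg_left l2 (by positivity))
  rw [mul_assoc, mul_one_div_cancel (by positivity)] at c4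
  linarith [norm_sub_le (p (ze N ^ j * w)) (p (ze N ^ j)), z2 j hj, z2 l l1,
    norm_sub_norm_le (p (ze N ^ j * w)) (p (ze N ^ l * r)), norm_sub_norm_le (p (ze N ^ l * r)) (p (ze N ^ l))]

end Pool.Agent.H.MP_3bea3b_an
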