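import Pool.Agent.H.MP_3bea3b_an.C

open Filter Topology Metric Set Complex ComplexConjugate MeasureTheory
open Pool.Agent.H.MP_5011cf_an Pool.Agent.H.MP_32de40_an

namespace Pool.Agent.H.MP_3bea3b_an

lemma prd {T : ℕ → ℂ → ℂ} {η : ℕ → ℝ} (h0 : Tendsto η atTop (𝓝 0))
    (h1 : ∀ K, ∀ z ∈ closedBall (0 : ℂ) 1, DifferentiableAt ℂ (T K) z)
    (h2 : ∀ K, ∀ z ∈ closedBall (0 : ℂ) 1, ‖T K z‖ ≤ 1) (h3 : ∀ K z, ‖z‖ = 1 → ‖T K z‖ = 1)
    (h4 : ∀ K, ∀ z ∈ closedBall (0 : ℂ) 1, η K ≤ ‖1 - z‖ → ‖T K z - 1‖ ≤ (1 / 2) ^ K) :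
    ∃ Θ, DifferentiableOn ℂ Θ (ball 0 1) ∧ Rad Θ ∧ ∀ z ∈ ball (0 : ℂ) 1, ∀ K, ‖Θ z‖ ≤ ‖T K z‖ ∧
      ((∀ j ≠ K, 1 - (1 / 2) ^ (j + 2) ≤ ‖T j z‖) → ‖T K z‖ / 2 ≤ ‖Θ z‖) := by
  obtain ⟨Θ, k⟩ : ∃ Θ : ℂ → ℂ, ∀ ρ, 0 < ρ → TendstoUniformlyOn (fun n z => ∏ i ∈ Finset.range n, T i z) Θ
      atTop (closedBall 0 1 ∩ {z | ρ ≤ ‖1 - z‖}) := ⟨fun z => ∏' i, T i z, fun ρ r0 => by
    simpa using (Summable.hasProdUniformlyOn_nat_one_add (f := fun i z => T i z - 1)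
      (K := closedBall 0 1 ∩ {z | ρ ≤ ‖1 - z‖})
      ((isCompact_closedBall 0 1).inter_right (isClosed_le continuous_const (by fun_prop)))
      summable_geometric_two ((h0.eventually_lt_const r0).mono fun n hn z hz =>
        h4 n z hz.1 (hn.le.trans hz.2)) fun n z hz => ((h1 n z hz.1).sub_const
          1).continuousAt.continuousWithinAt).tendstoUniformlyOn_finsetRange⟩
  have d : ∀ n, ∀ z ∈ closedBall (0 : ℂ) 1, DifferentiableAt ℂ (fun z => ∏ i ∈ Finset.range n, T i z) z :=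
    fun n z hz => DifferentiableAt.fun_finsetProd fun i _ => h1 i z hz
  have t : ∀ z ∈ closedBall (0 : ℂ) 1, z ≠ 1 → Tendsto (fun n => ∏ i ∈ Finset.range n, ‖T i z‖) atTop
      (𝓝 ‖Θ z‖) := fun z hz e => by
    simpa using ((k _ (norm_pos_iff.2 (sub_ne_zero.2 e.symm))).tendsto_at ⟨hz, le_refl ‖1 - z‖⟩).norm
  refine ⟨Θ, TendstoLocallyUniformlyOn.differentiableOn (φ := atTop)
    (F := fun n z => ∏ i ∈ Finset.range n, T i z) ((tendstoLocallyUniformlyOn_iff_forall_isCompact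
    isOpen_ball).2 fun S s1 s2 => ?_) (Eventually.of_forall fun n z hz =>
      (d n z (ball_subset_closedBall hz)).differentiableWithinAt) isOpen_ball, ?_, fun z hz K => ?_⟩
  · obtain ⟨r, r1, r2⟩ := exists_lt_subset_ball s2.isClosed s1
    exact (k _ (sub_pos.2 r1)).mono fun z hz => ⟨ball_subset_closedBall (s1 hz), by
      have := norm_sub_norm_le 1 z
      rw [norm_one] at this
      exact le_trans (by linarith [mem_ball_zero_iff.1 (r2 hz)]) this⟩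
  · have c : {θ : ℝ | ex θ = 1}.Countable := (countable_range fun n : ℤ => n * (2 * Real.pi)).mono
      fun θ e => (exp_eq_one_iff.1 e).imp fun n e => by simpa using (congrArg im e).symm
    filter_upwards [measure_eq_zero_iff_ae_notMem.1 (c.measure_zero volume)] with θ e
    have m := mem_closedBall_zero_iff.2 (ex_norm θ).le
    have r0 := half_pos (norm_pos_iff.2 (sub_ne_zero.2 (Ne.symm e)))
    refine ⟨Θ (ex θ), tendsto_nhds_unique (t _ m e) (by simp [h3 _ _ (ex_norm θ)]), ((k _ r0).continuousOn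
      (Frequently.of_forall fun n z hz => (d n z hz.1).continuousAt.continuousWithinAt) _
        ⟨m, half_le_self (norm_nonneg _)⟩).tendsto.comp (tendsto_nhdsWithin_iff.2 ⟨radt _,
          (rad (ex_norm θ) r0).mono fun r ⟨_, _, r1, r2⟩ => ⟨ball_subset_closedBall r2, ?_⟩⟩)⟩
    rw [mem_ball, dist_eq_norm] at r1
    exact le_of_add_le_add_right ((add_halves _).trans_le ((norm_sub_le_norm_sub_add_norm_sub _ _ _).trans
      (add_le_add le_rfl r1.le)))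
  have m := ball_subset_closedBall hz
  have t := t z m fun e => by simp [e] at hz
  have e : ∀ᶠ n in atTop, ∏ i ∈ Finset.range n, ‖T i z‖ =
      ‖T K z‖ * ∏ i ∈ (Finset.range n).erase K, ‖T i z‖ := (eventually_gt_atTop K).mono fun n hn =>
    (Finset.mul_prod_erase _ (fun i => ‖T i z‖) (Finset.mem_range.2 hn)).symm
  refine ⟨le_of_tendsto t (e.mono fun n hn => hn ▸ mul_le_of_le_one_right (norm_nonneg _)
    (Finset.prod_le_one (fun _ _ => norm_nonneg _) fun i _ => h2 i z m)), fun h => ge_of_tendsto t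
      (e.mono fun n hn => ?_)⟩
  have p0 : ∀ j : ℕ, (0 : ℝ) ≤ 1 - (1 / 2) ^ (j + 2) := fun j => sub_nonneg.2 (pow_le_one₀ (by norm_num)
    (by norm_num))
  have p : 1 / 2 + (1 / 2) ^ (n + 1) ≤ ∏ j ∈ Finset.range n, (1 - (1 / 2) ^ (j + 2) : ℝ) := by
    clear hn
    induction n with
    | zero => norm_num
    | succ n ih =>
      rw [Finset.prod_range_succ]
      refine le_trans ?_ (mul_le_mul_of_nonneg_right ih (p0 n))
      have : (1 / 2 : ℝ) ^ n ≤ 1 := pow_le_one₀ (by norm_num) (by norm_num)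
      have : (0 : ℝ) ≤ (1 / 2) ^ n := by positivity
      simp only [pow_succ]
      nlinarith
  rw [hn, div_eq_mul_one_div]
  exact mul_le_mul_of_nonneg_left (((le_add_of_nonneg_right (by positivity)).trans p).trans
    ((Finset.prod_le_prod_of_subset_of_le_one (Finset.erase_subset K _) (fun j _ => p0 j)
      fun j _ _ => sub_le_self _ (by positivity)).trans (Finset.prod_le_prod (fun j _ => p0 j)
        fun j hj => h j (Finset.ne_of_mem_erase hj)))) (norm_nonneg _)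

structure Stage where
  f : ℂ → ℂ
  T : ℂ → ℂ
  lo : ℝ
  hi : ℝ
  L : ℝ

structure Sg (W : ℝ → ℝ) (K : ℕ) (η : ℝ) (s : Stage) : Prop where
  lo : 0 < s.lo
  hi : s.hi ≤ η
  L : 0 ≤ s.L
  t1 : ∀ z ∈ closedBall (0 : ℂ) 1, DifferentiableAt ℂ s.T z
  t2 : ∀ z ∈ closedBall (0 : ℂ) 1, ‖s.T z‖ ≤ 1
  t3 : ∀ z, ‖z‖ = 1 → ‖s.T z‖ = 1
  t4 : ∀ z ∈ closedBall (0 : ℂ) 1, η ≤ ‖1 - z‖ → ‖s.T z - 1‖ ≤ (1 / 2) ^ K
  t5 : ∀ z ∈ ball (0 : ℂ) 1, 1 - ‖z‖ ∉ Icc s.lo s.hi → 1 - (1 / 2) ^ (K + 2) ≤ ‖s.T z‖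
  f1 : DifferentiableOn ℂ s.f (ball 0 1)
  f2 : ∀ z ∈ ball (0 : ℂ) 1, ‖s.f z‖ ≤ η ∧ ‖s.f z‖ ≤ s.L * ‖1 - z‖
  f3 : ∀ z ∈ ball (0 : ℂ) 1, (1 - ‖z‖) * ‖deriv s.f z‖ ≤ 13 * W (1 - ‖z‖) ∧ (1 - ‖z‖ ∉ Icc s.lo s.hi →
    (1 - ‖z‖) * ‖deriv s.f z‖ ≤ (1 / 2) ^ K * W (1 - ‖z‖))

theorem glue {W : ℝ → ℝ} (hW : Mo W) {X : ℕ → ℝ → Stage → Prop}
    (h : ∀ K η Λ, 0 < η → 0 ≤ Λ → ∃ s, Sg W K η s ∧ X K Λ s) :
    ∃ f Θ : ℂ → ℂ, DifferentiableOn ℂ f (ball 0 1) ∧ (∀ z ∈ ball (0 : ℂ) 1, ‖f z‖ ≤ 2) ∧ Bw W f ∧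
      DifferentiableOn ℂ Θ (ball 0 1) ∧ (∀ z ∈ ball (0 : ℂ) 1, ‖Θ z‖ ≤ 1) ∧ Rad Θ ∧
      ∃ (s : ℕ → Stage) (Λ : ℕ → ℝ), (∀ K, X K (Λ K) (s K) ∧ ∀ z ∈ ball (0 : ℂ) 1,
        1 - ‖z‖ ∈ Icc (s K).lo (s K).hi → ‖Θ z‖ ≤ ‖(s K).T z‖ ∧ ‖(s K).T z‖ / 2 ≤ ‖Θ z‖ ∧
          ‖f z - (s K).f z‖ ≤ Λ K * ‖1 - z‖ + W (1 - ‖z‖)) ∧
        ∀ z ∈ ball (0 : ℂ) 1, ‖Θ z‖ < 1 / 4 → ∃ K, 1 - ‖z‖ ∈ Icc (s K).lo (s K).hi := by
  have : Nonempty Stage := ⟨⟨0, 0, 0, 0, 0⟩⟩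
  choose! S s1 s2 using h
  obtain ⟨u, u0, u1⟩ : ∃ u : ℕ → ℝ × ℝ, u 0 = (1, 0) ∧ ∀ K, u (K + 1) = (min (min (u K).1
      (S K (u K).1 (u K).2).lo) (W (S K (u K).1 (u K).2).lo) / 2, (u K).2 + (S K (u K).1 (u K).2).L) :=
    ⟨fun n => n.rec (1, 0) fun K u => (min (min u.1 (S K u.1 u.2).lo) (W (S K u.1 u.2).lo) / 2,
      u.2 + (S K u.1 u.2).L), rfl, fun _ => rfl⟩
  have u2 : ∀ K, 0 < (u K).1 ∧ 0 ≤ (u K).2 := fun K => by
    induction K with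
    | zero => simp [u0]
    | succ K ih =>
      have := s1 K _ _ ih.1 ih.2
      rw [u1]
      exact ⟨half_pos (lt_min (lt_min ih.1 this.lo) (hW.pos _ this.lo)), add_nonneg ih.2 this.L⟩
  obtain ⟨s, hs⟩ : ∃ s : ℕ → Stage, ∀ K, S K (u K).1 (u K).2 = s K := ⟨_, fun _ => rfl⟩
  have g : ∀ K, Sg W K (u K).1 (s K) := fun K => hs K ▸ s1 K _ _ (u2 K).1 (u2 K).2
  simp only [hs] at u1
  have u3 : ∀ K, (u (K + 1)).1 ≤ (u K).1 / 2 ∧ (u (K + 1)).1 ≤ (s K).lo / 2 ∧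
      (u (K + 1)).1 ≤ W (s K).lo / 2 := fun K => by
    rw [u1]
    refine ⟨?_, ?_, ?_⟩ <;> exact div_le_div_of_nonneg_right (by simp) zero_le_two
  have u4 : ∀ K j, (u (j + K)).1 ≤ (u K).1 * (1 / 2) ^ j := fun K j => by
    induction j with
    | zero => simp
    | succ j ih => rw [add_right_comm, pow_succ]; linarith [(u3 (j + K)).1]
  have u5 : ∀ j, (u j).1 ≤ (1 / 2) ^ j := fun j => by simpa [u0] using u4 0 j
  have u6 : ∀ K, (u K).2 = ∑ j ∈ Finset.range K, (s j).L := fun K => by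
    induction K with
    | zero => simp [u0]
    | succ K ih => rw [u1, Finset.sum_range_succ, ← ih]
  have w1 : ∀ j K, j < K → (s K).hi < (s j).lo := fun j K e => by
    obtain ⟨i, rfl⟩ := Nat.exists_eq_add_of_lt e
    have := u4 (j + 1) i
    rw [show i + (j + 1) = j + i + 1 by ring] at this
    linarith [(g (j + i + 1)).hi, (u3 j).2.1, (g j).lo, mul_le_of_le_one_right (u2 (j + 1)).1.le
      (pow_le_one₀ (n := i) (show (0 : ℝ) ≤ 1 / 2 by norm_num) (by norm_num))]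
  have w2 : ∀ τ K, τ ∈ Icc (s K).lo (s K).hi → ∀ j ≠ K, τ ∉ Icc (s j).lo (s j).hi := fun τ K e j e1 e2 => by
    rcases e1.lt_or_gt with e1 | e1 <;> linarith [w1 _ _ e1, e.1, e.2, e2.1, e2.2]
  have w3 : ∀ τ, ∃ K, ∀ j ≠ K, τ ∉ Icc (s j).lo (s j).hi := fun τ => by
    by_cases e : ∃ K, τ ∈ Icc (s K).lo (s K).hi
    exacts [e.imp (w2 τ), ⟨0, fun j _ e' => e ⟨j, e'⟩⟩]
  obtain ⟨Θ, t1, t2, t3⟩ := prd (squeeze_zero (fun K => (u2 K).1.le) u5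
    (tendsto_pow_atTop_nhds_zero_of_lt_one (by norm_num) (by norm_num))) (fun K => (g K).t1)
    (fun K => (g K).t2) (fun K => (g K).t3) fun K => (g K).t4
  have b : ∀ K, ∀ z ∈ ball (0 : ℂ) 1, ‖(s K).f z‖ ≤ (1 / 2) ^ K := fun K z hz => ((g K).f2 z hz).1.trans (u5 K)
  refine ⟨fun z => ∑' K, (s K).f z, Θ, differentiableOn_tsum_of_summable_norm summable_geometric_two
    (fun K => (g K).f1) isOpen_ball b, fun z hz => tsum_of_norm_bounded hasSum_geometric_two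
      fun K => b K z hz, ⟨2 + 13, by norm_num, fun z hz => ?_⟩, t1, fun z hz => (t3 z hz 0).1.trans
        ((g 0).t2 z (ball_subset_closedBall hz)), t2, s, fun K => (u K).2, fun K => ⟨hs K ▸ s2 K _ _
          (u2 K).1 (u2 K).2, fun z hz e => ⟨(t3 z hz K).1, (t3 z hz K).2 fun j e' => (g j).t5 z hz
            (w2 _ K e j e'), ?_⟩⟩, fun z hz e => by_contra fun k => ?_⟩
  · obtain ⟨K, hK⟩ := w3 (1 - ‖z‖)
    have z0 := sub_pos.2 (mem_ball_zero_iff.1 hz)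
    have W0 := hW.pos _ z0
    have := ((hasSum_deriv_of_summable_norm summable_geometric_two (fun K => (g K).f1) isOpen_ball b
      hz).const_smul (1 - ‖z‖)).norm_le_of_bounded ((hasSum_geometric_two.add
        (hasSum_ite_eq K 13)).mul_right (W (1 - ‖z‖))) fun j => by
      rw [norm_smul, Real.norm_of_nonneg z0.le]
      split_ifs with e
      · exact ((g j).f3 z hz).1.trans (mul_le_mul_of_nonneg_right (le_add_of_nonneg_left
          (by positivity)) W0.le)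
      · simpa using ((g j).f3 z hz).2 (hK j e)
    rwa [norm_smul, Real.norm_of_nonneg z0.le] at this
  · have a1 := tsum_of_norm_bounded (hasSum_geometric_two.mul_left (u (K + 1)).1)
      fun j => ((g (j + (K + 1))).f2 z hz).1.trans (u4 _ j)
    have a2 := norm_sum_le_of_le (Finset.range K) fun j _ => ((g j).f2 z hz).2
    rw [← Finset.sum_mul, ← u6] at a2
    beta_reduce
    rw [← (Summable.of_norm_bounded summable_geometric_two fun K => b K z hz).sum_add_tsum_nat_add (K + 1),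
      Finset.sum_range_succ, add_right_comm, add_sub_cancel_right]
    linarith [norm_add_le (∑ j ∈ Finset.range K, (s j).f z) (∑' j, (s (j + (K + 1))).f z), (u3 K).2.2,
      hW.mono _ _ (g K).lo e.1]
  · push Not at k
    have := (t3 z hz 0).2 fun j _ => (g j).t5 z hz (k j)
    linarith [(g 0).t5 z hz (k 0)]

end Pool.Agent.H.MP_3bea3b_an
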