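import Pool.Agent.H.MP_3bea3b_an.D

open Filter Topology Metric Set Complex ComplexConjugate MeasureTheory
open Pool.Agent.H.MP_5011cf_an Pool.Agent.H.MP_32de40_an

namespace Pool.Agent.H.MP_3bea3b_an

lemma mob {t : ℝ} (t0 : 0 < t) (t1 : t ≤ 1) {y : ℂ} (hy : ‖y‖ ≤ 1) :
    ‖bf (1 - t : ℝ) y‖ ≤ 1 ∧ (1 - ‖bf (1 - t : ℝ) y‖ ^ 2) * t ≤ 4 * (1 - ‖y‖) ∧
    (1 - ‖bf (1 - t : ℝ) y‖ ^ 2) * ‖1 - y‖ ≤ 8 * t ∧ ‖bf (1 - t : ℝ) y + 1‖ * ‖1 - y‖ ≤ 4 * t ∧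
    ‖bf (1 - t : ℝ) y - 1‖ * t ≤ 2 * ‖1 - y‖ ∧ ∃ D, HasDerivAt (bf (1 - t : ℝ)) D y ∧
      (1 - ‖y‖ ^ 2) * ‖D‖ = 1 - ‖bf (1 - t : ℝ) y‖ ^ 2 := by
  have a : ‖((1 - t : ℝ) : ℂ)‖ = 1 - t := by rw [norm_real, Real.norm_of_nonneg (by linarith)]
  have a1 : ‖((1 - t : ℝ) : ℂ)‖ < 1 := by linarith
  have n := mne a1 hy
  have e := mid2 a1 hy
  have q1 := mge (1 - t : ℝ) hy
  have y0 := norm_nonneg y
  refine ⟨mle a1 hy, ?_⟩
  unfold bf
  rw [e]
  simp only [conj_ofReal] at *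
  have q2 : 1 - ‖y‖ ≤ ‖1 - (1 - t : ℝ) * y‖ := by
    have := norm_sub_norm_le 1 ((1 - t : ℝ) * y)
    rw [norm_mul, a, norm_one] at this
    nlinarith
  have q3 : ‖1 - y‖ ≤ 2 * ‖1 - (1 - t : ℝ) * y‖ := by
    have := norm_sub_le (1 - (1 - t : ℝ) * y) (t * y)
    rw [norm_mul, norm_real, Real.norm_of_nonneg t0.le, show 1 - (1 - t : ℝ) * y - t * y = 1 - y by
      push_cast; ring] at this
    nlinarith
  have p1 : ‖(y - (1 - t : ℝ)) / (1 - (1 - t : ℝ) * y) + 1‖ * ‖1 - (1 - t : ℝ) * y‖ ≤ 2 * t := by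
    rw [← norm_mul, add_mul, div_mul_cancel₀ _ n, show y - (1 - t : ℝ) + 1 * (1 - (1 - t : ℝ) * y) =
      t * (1 + y) by push_cast; ring, norm_mul, norm_real, Real.norm_of_nonneg t0.le]
    nlinarith [norm_add_le 1 y, norm_one (α := ℂ)]
  have p2 : ‖(y - (1 - t : ℝ)) / (1 - (1 - t : ℝ) * y) - 1‖ * ‖1 - (1 - t : ℝ) * y‖ ≤ 2 * ‖1 - y‖ := by
    rw [← norm_mul, sub_mul, div_mul_cancel₀ _ n, show y - (1 - t : ℝ) - 1 * (1 - (1 - t : ℝ) * y) =
      (t - 2 : ℝ) * (1 - y) by push_cast; ring, norm_mul, norm_real, Real.norm_of_nonpos (by linarith)]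
    nlinarith [norm_nonneg (1 - y)]
  have d : HasDerivAt (fun w : ℂ => (w - (1 - t : ℝ)) / (1 - (1 - t : ℝ) * w))
      ((1 - (1 - t) ^ 2 : ℝ) / (1 - (1 - t : ℝ) * y) ^ 2) y :=
    (((hasDerivAt_id y).sub_const _).div (((hasDerivAt_id y).const_mul _).const_sub 1) n).congr_deriv
      (by push_cast; simp only [id]; ring)
  rw [a] at *
  have Q0 := norm_pos_iff.2 n
  have b0 : 0 ≤ 1 - (1 - t) ^ 2 := by nlinarith
  have b1 : (1 - (1 - t) ^ 2) * (1 - ‖y‖ ^ 2) ≤ (2 * t) * (2 * (1 - ‖y‖)) :=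
    mul_le_mul (by nlinarith) (by nlinarith) (by nlinarith) (by linarith)
  refine ⟨?_, ?_, ?_, ?_, _, d, ?_⟩
  · rw [div_mul_eq_mul_div, div_le_iff₀ (by positivity)]
    nlinarith [mul_le_mul_of_nonneg_right b1 t0.le, mul_le_mul_of_nonneg_left (pow_le_pow_left₀ t0.le
      ((sub_sub_self 1 t).ge.trans q1) 2) (sub_nonneg.2 hy)]
  · rw [div_mul_eq_mul_div, div_le_iff₀ (by positivity)]
    nlinarith [mul_le_mul b1 q3 (norm_nonneg _) (by nlinarith), mul_le_mul_of_nonneg_left q2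
      (mul_pos t0 Q0).le]
  · nlinarith [mul_le_mul_of_nonneg_left q3 (norm_nonneg ((y - (1 - t : ℝ)) / (1 - (1 - t : ℝ) * y) + 1))]
  · nlinarith [mul_le_mul_of_nonneg_left q1 (norm_nonneg ((y - (1 - t : ℝ)) / (1 - (1 - t : ℝ) * y) - 1))]
  · rw [norm_div, norm_pow, norm_real, Real.norm_of_nonneg b0]
    ring

lemma win {μ t : ℝ} (μ0 : 0 < μ) (t0 : 0 < t) (t1 : t ≤ 1) {y : ℂ} (hy : ‖y‖ < 1)
    (e : 1 - ‖y‖ ∉ Icc (μ * t) (t / μ)) :
    1 - ‖bf (1 - t : ℝ) y‖ ^ 2 ≤ 8 * μ ∧ 1 - ‖bf (1 - t : ℝ) y‖ ≤ 8 * μ := by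
  obtain ⟨e0, e1, e2, -⟩ := mob t0 t1 hy.le
  have e3 := norm_sub_norm_le 1 y
  have e4 := pow_le_of_le_one (norm_nonneg _) e0 two_ne_zero
  rw [norm_one] at e3
  suffices h : 1 - ‖bf (1 - t : ℝ) y‖ ^ 2 ≤ 8 * μ from ⟨h, by linarith⟩
  rcases not_and_or.1 e with e | e
  · exact le_of_mul_le_mul_right (by nlinarith [not_le.1 e]) t0
  · have := (div_lt_iff₀ μ0).1 (not_le.1 e)
    exact le_of_mul_le_mul_right (by nlinarith [mul_le_mul_of_nonneg_left e3 (sub_nonneg.2 (e4.trans e0))])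
      (sub_pos.2 hy)

def PW (W : ℝ → ℝ) : Prop := ∀ f Θ : ℂ → ℂ, DifferentiableOn ℂ f (ball 0 1) →
  (∀ z ∈ ball (0 : ℂ) 1, ‖f z‖ ≤ 2) → Bw W f → DifferentiableOn ℂ Θ (ball 0 1) →
  (∀ z ∈ ball (0 : ℂ) 1, ‖Θ z‖ ≤ 1) → Rad Θ → Tw W f Θ (1 / 200) →
    Bw W (f * Θ) ∧ Tw W f Θ (31251 / 31252)

variable {W : ℝ → ℝ}

lemma pt {t : ℝ} (t0 : 0 < t) (t1 : t ≤ 1) {ζ : ℂ} (h : ‖ζ‖ = 1) :
    1 - ‖((1 - t : ℝ) * ζ : ℂ)‖ = t ∧ ((1 - t : ℝ) * ζ : ℂ) ∈ ball (0 : ℂ) 1 := by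
  rw [mem_ball_zero_iff, norm_mul, h, norm_real, Real.norm_of_nonneg (by linarith)]
  constructor <;> linarith

theorem lin (hW : Mo W) (h : PW W) : ∃ c, 0 < c ∧ ∀ t, 0 < t → t ≤ 1 → c * t ≤ W t := by
  have W2 := hW.pos (1 / 2) (by norm_num)
  obtain ⟨C, C0, hC⟩ := (h 1 id (differentiableOn_const 1) (by simp) ⟨0, le_rfl, by simp⟩ differentiableOn_id
    (fun z hz => (mem_ball_zero_iff.1 hz).le) (Eventually.of_forall fun θ => ⟨_, ex_norm θ, radt _⟩)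
    ⟨1 / W (1 / 2), by positivity, fun z _ e => by
      rw [div_mul_eq_mul_div, le_div_iff₀ W2]
      simpa using hW.mono (1 / 2) (1 - ‖z‖) (by norm_num) (by linarith [show ‖z‖ < _ from e])⟩).1
  refine ⟨1 / (C + 1), by positivity, fun t t0 t1 => ?_⟩
  have := hC _ (pt t0 t1 norm_one).2
  rw [(pt t0 t1 norm_one).1, one_mul, deriv_id, norm_one] at this
  rw [div_mul_eq_mul_div, div_le_iff₀ (by positivity)]
  linarith [hW.pos t t0]

lemma sml (hW : Mo W) (h0 : ∀ c, 0 < c → ∃ t, 0 < t ∧ W t < c) {c : ℝ} (hc : 0 < c) :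
    ∀ᶠ t in 𝓝[>] 0, W t < c :=
  let ⟨t, t0, e⟩ := h0 c hc
  Eventually.mono (Ioo_mem_nhdsGT t0) fun s hs => (hW.mono _ _ hs.1 hs.2.le).trans_lt e

theorem adm (hW : Mo W) (h : PW W) (h0 : ∀ c, 0 < c → ∃ t, 0 < t ∧ W t < c) :
    ∃ C, ∀ s t, 0 < s → s ≤ t → t ≤ 1 → s * W t ≤ C * (t * W s) := by
  obtain ⟨c, c0, hc⟩ := lin hW h
  by_contra! k
  have k1 : ∀ K : ℝ, ∃ᶠ t in 𝓝[>] 0, ∃ s, 0 < s ∧ s ≤ t ∧ K * (t * W s) < s * W t := fun K e => by
    obtain ⟨u, u0, hu⟩ := (nhdsGT_basis 0).eventually_iff.1 e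
    obtain ⟨s, t, s0, s1, t1, e⟩ := k (max K (W 1 / (c * u)))
    have p := mul_pos (s0.trans_le s1) (hW.pos s s0)
    rcases lt_or_ge t u with e1 | e1
    · exact hu ⟨s0.trans_le s1, e1⟩ ⟨s, s0, s1, (mul_le_mul_of_nonneg_right (le_max_left _ _) p.le).trans_lt e⟩
    · have := (mul_le_mul_of_nonneg_right (le_max_right _ _) p.le).trans_lt e
      rw [div_mul_eq_mul_div, div_lt_iff₀ (by positivity)] at this
      nlinarith [mul_le_mul (mul_le_mul (hW.mono t 1 (s0.trans_le s1) t1) e1 u0.le (hW.pos 1 one_pos).le)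
        (hc s s0 (s1.trans t1)) (by positivity) (mul_pos (hW.pos 1 one_pos) (s0.trans_le s1)).le]
  obtain ⟨F, Θ, -, -, -, a1, a2, a3, S, Λ, a4, a5⟩ := glue hW (X := fun K _ S => ∃ s t ζ, 0 < s ∧ s ≤ t ∧
    t ≤ 1 / 20 ∧ K * (t * W s) < s * W t ∧ ‖ζ‖ = 1 ∧ ‖1 - ζ‖ ≤ 2 * W t ∧ W t ≤ ζ.im ∧ S.lo ≤ 5 * t ∧
      10 * t ≤ S.hi ∧ S.T = fun z => -bf (1 - 5 * t : ℝ) (conj ζ * z)) fun K η Λ η0 _ => by
    obtain ⟨μ, hμ⟩ : ∃ μ : ℝ, μ = (1 / 2) ^ (K + 2) / 8 := ⟨_, rfl⟩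
    have μ0 : 0 < μ := by rw [hμ]; positivity
    have μ1 : μ ≤ 1 / 8 := hμ ▸ div_le_div_of_nonneg_right (pow_le_one₀ (by norm_num) (by norm_num))
      (by norm_num)
    obtain ⟨t, ⟨s, s0, s1, e⟩, ⟨b1, b2⟩, t0, b3⟩ := ((k1 K).and_eventually (((sml hW h0 one_pos).and
      (sml hW h0 (c := η / 4) (by positivity))).and (Ioo_mem_nhdsGT (show 0 < μ * min 1 η / 5 by
        positivity)))).exists
    have d0 := hW.pos t t0
    have b4 : 5 * t ≤ μ * η := by nlinarith [min_le_right 1 η]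
    have b5 : 5 * t ≤ μ := by nlinarith [min_le_left 1 η]
    obtain ⟨ζ, z1, z2, z3⟩ : ∃ ζ : ℂ, ‖ζ‖ = 1 ∧ ‖1 - ζ‖ ≤ 2 * W t ∧ W t ≤ ζ.im := by
      refine ⟨⟨√(1 - W t ^ 2), W t⟩, ?_, ?_, le_rfl⟩
      · rw [norm_eq_sqrt_sq_add_sq, Real.sq_sqrt (by nlinarith)]; simp
      · refine (norm_le_abs_re_add_abs_im _).trans ?_
        have := Real.le_sqrt_of_sq_le (show (1 - W t) ^ 2 ≤ 1 - W t ^ 2 by nlinarith)
        have := Real.sqrt_le_one.2 (show 1 - W t ^ 2 ≤ 1 by nlinarith)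
        simp only [sub_re, one_re, sub_im, one_im, zero_sub, abs_neg]
        rw [abs_of_nonneg (by linarith), abs_of_pos d0]
        linarith
    have n : ∀ z, ‖conj ζ * z‖ = ‖z‖ := fun z => by rw [norm_mul, norm_conj, z1, one_mul]
    have m := fun z (hz : z ∈ closedBall (0 : ℂ) 1) => mob (t := 5 * t) (by positivity) (by linarith)
      ((n z).trans_le (mem_closedBall_zero_iff.1 hz))
    refine ⟨⟨0, _, μ * (5 * t), 5 * t / μ, 0⟩, ⟨by positivity, (div_le_iff₀' μ0).2 b4, le_rfl, fun z hz => ?_,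
      fun z hz => (norm_neg _).trans_le (m z hz).1, fun z hz => (norm_neg _).trans (bf1 ?_ ((n z).trans hz)),
      fun z hz e => ?_, fun z hz e => ?_, differentiableOn_const 0, by simpa using fun _ _ => η0.le,
      fun z hz => ?_⟩, s, t, ζ, s0, s1, by linarith, e, z1, z2, z3, mul_le_of_le_one_left (by positivity)
        (by linarith), (le_div_iff₀ μ0).2 (by nlinarith), rfl⟩
    · obtain ⟨-, -, -, -, -, D, d, -⟩ := m z hz
      exact (d.differentiableAt.comp z (by fun_prop)).neg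
    · rw [norm_real, Real.norm_of_nonneg (by linarith)]; linarith
    · have e1 : η / 2 ≤ ‖1 - conj ζ * z‖ := by
        have := norm_sub_le_norm_sub_add_norm_sub 1 ζ z
        rw [← n (ζ - z), mul_sub, mul_comm, mul_conj, normSq_eq_norm_sq, z1] at this
        simp only [one_pow, ofReal_one] at this
        linarith
      have e2 := (mul_le_mul_of_nonneg_left e1 (norm_nonneg _)).trans (m z hz).2.2.2.1
      rw [← neg_add', norm_neg]
      refine le_of_mul_le_mul_right (e2.trans ?_) (half_pos η0)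
      rw [hμ, pow_add] at b4
      linarith [show 0 < (1 / 2) ^ K * η by positivity]
    · have := (win μ0 (t := 5 * t) (by positivity) (by linarith) ((n z).trans_lt (mem_ball_zero_iff.1 hz))
        (n z ▸ e)).2
      rw [norm_neg]
      linarith
    · have := hW.pos _ (sub_pos.2 (mem_ball_zero_iff.1 hz))
      simp only [deriv_zero, Pi.zero_apply, norm_zero, mul_zero]
      exact ⟨by positivity, fun _ => by positivity⟩
  have d : ∀ z : ℂ, HasDerivAt (fun z => 1 - z) (-1) z := fun z => (hasDerivAt_id z).const_sub 1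
  have d1 : DifferentiableOn ℂ (fun z : ℂ => 1 - z) (ball 0 1) := by fun_prop
  obtain ⟨C, C0, hC⟩ := (h (fun z => 1 - z) Θ d1 (fun z hz => by
    linarith [norm_sub_le 1 z, mem_ball_zero_iff.1 hz, norm_one (α := ℂ)]) ⟨1 / c, by positivity, fun z hz => by
      rw [(d z).deriv, norm_neg, norm_one, mul_one, div_mul_eq_mul_div, le_div_iff₀' c0, one_mul]
      exact hc _ (sub_pos.2 (mem_ball_zero_iff.1 hz)) (sub_le_self _ (norm_nonneg _))⟩ a1 a2 a3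
    ⟨2 + 45 / c, by positivity, fun z hz e => by
      obtain ⟨K, hK⟩ := a5 z hz (by linarith)
      obtain ⟨⟨s, t, ζ, s0, s1, t1, -, z1, z2, -, -, -, z3⟩, e1⟩ := a4 K
      have n : ∀ z, ‖conj ζ * z‖ = ‖z‖ := fun z => by rw [norm_mul, norm_conj, z1, one_mul]
      have e2 := (e1 z hz hK).2.1
      obtain ⟨-, b1, b2, -⟩ := mob (t := 5 * t) (by linarith) (by linarith)
        ((n z).trans_lt (mem_ball_zero_iff.1 hz)).le
      simp only [z3, norm_neg] at e2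
      have b3 : 9 / 10 ≤ 1 - ‖bf (1 - 5 * t : ℝ) (conj ζ * z)‖ ^ 2 := by
        nlinarith [norm_nonneg (bf (1 - 5 * t : ℝ) (conj ζ * z))]
      have b4 := norm_sub_le_norm_sub_add_norm_sub 1 ζ z
      rw [← n (ζ - z), mul_sub, mul_comm, mul_conj, normSq_eq_norm_sq, z1] at b4
      simp only [one_pow, ofReal_one] at b4
      have b5 := hW.mono t (1 - ‖z‖) (by linarith) (by rw [n] at b1; nlinarith)
      have b6 : 45 * t ≤ 45 / c * W (1 - ‖z‖) := by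
        rw [div_mul_eq_mul_div, le_div_iff₀ c0]; linarith [hc t (by linarith) (by linarith)]
      nlinarith [mul_le_mul_of_nonneg_right b3 (norm_nonneg (1 - conj ζ * z))]⟩).1
  obtain ⟨K, hK⟩ := exists_nat_gt (60 * C)
  obtain ⟨⟨s, t, ζ, s0, s1, t1, e, z1, z2, z3, w1, w2, z4⟩, e1⟩ := a4 K
  have t0 := s0.trans_le s1
  obtain ⟨p1, p2⟩ := pt (t := 5 * t) (by linarith) (by linarith) z1
  obtain ⟨p3, p4⟩ := pt (t := 10 * t) (by linarith) (by linarith) z1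
  have q1 := (e1 _ p2 (p1.symm ▸ ⟨w1, by linarith⟩)).1
  have q2 := (e1 _ p4 (p3.symm ▸ ⟨by linarith, w2⟩)).2.1
  have q3 : ∀ x : ℂ, conj ζ * (x * ζ) = x := fun x => by
    rw [mul_left_comm, mul_comm _ ζ, mul_conj, normSq_eq_norm_sq, z1]; simp
  simp only [z4, q3, bf, sub_self, zero_div, norm_neg, norm_zero, conj_ofReal, ← ofReal_mul, ← ofReal_sub,
    ← ofReal_one, ← ofReal_div, norm_real] at q1 q2
  have d2 := d1.mul a1
  have s2 : closedBall (0 : ℂ) (1 - s) ⊆ ball 0 1 := closedBall_subset_ball (by linarith)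
  have r0 : 0 < 1 - s := by linarith
  have q4 := (convex_closedBall _ _).norm_image_sub_le_of_norm_deriv_le (C := C * W s / s)
    (fun x hx => d2.differentiableAt (isOpen_ball.mem_nhds (s2 hx))) (fun x hx =>
      norm_le_of_forall_mem_frontier_norm_le isBounded_ball (((d2.deriv isOpen_ball).mono
        (closure_ball_subset_closedBall.trans s2)).diffContOnCl) (fun y hy => by
          rw [frontier_ball _ r0.ne'] at hy
          have := hC y (s2 (sphere_subset_closedBall hy))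
          rwa [mem_sphere_zero_iff_norm.1 hy, sub_sub_self, ← le_div_iff₀' s0] at this)
        ((closure_ball (0 : ℂ) r0.ne').symm ▸ hx)) (mem_closedBall_zero_iff.2 (show ‖((1 - 5 * t : ℝ) * ζ : ℂ)‖ ≤ _ by
          linarith)) (mem_closedBall_zero_iff.2 (show ‖((1 - 10 * t : ℝ) * ζ : ℂ)‖ ≤ _ by linarith))
  rw [Pi.mul_apply, Pi.mul_apply, norm_le_zero_iff.1 q1, mul_zero, sub_zero, norm_mul, ← sub_mul, norm_mul, z1,
    ← ofReal_sub, norm_real, Real.norm_of_nonpos (by linarith)] at q4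
  have q5 : W t / 2 ≤ ‖1 - (1 - 10 * t : ℝ) * ζ‖ := le_trans (by
    simp only [sub_im, one_im, im_ofReal_mul, zero_sub, abs_neg]
    exact le_trans (by nlinarith [hW.pos t t0]) (le_abs_self _)) (abs_im_le_norm _)
  have q6 : 1 / 3 ≤ ‖(1 - 10 * t - (1 - 5 * t)) / (1 - (1 - 5 * t) * (1 - 10 * t))‖ := by
    rw [norm_div, Real.norm_of_nonpos (by linarith), Real.norm_of_nonneg (by nlinarith),
      le_div_iff₀ (by nlinarith)]
    nlinarith
  have q7 := (mul_le_mul q5 (show 1 / 6 ≤ _ by linarith) (by norm_num) (norm_nonneg _)).trans q4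
  rw [div_mul_eq_mul_div _ s, le_div_iff₀ s0] at q7
  nlinarith [mul_lt_mul_of_pos_right hK (mul_pos t0 (hW.pos s s0))]

end Pool.Agent.H.MP_3bea3b_an
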