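import Pool.Agent.H.MP_3bea3b_an.E

open Filter Topology Metric Set Complex ComplexConjugate MeasureTheory
open Pool.Agent.H.MP_5011cf_an Pool.Agent.H.MP_32de40_an

namespace Pool.Agent.H.MP_3bea3b_an

variable {W : ℝ → ℝ}

lemma loc' (K : ℝ) : ∃ (p B : ℂ → ℂ) (L : ℝ), 0 < L ∧ (∀ w ∈ closedBall (0 : ℂ) 1, DifferentiableAt ℂ p w ∧
    DifferentiableAt ℂ B w ∧ ‖B w‖ ≤ 1 ∧ ‖B w - 1‖ ≤ L * ‖w + 1‖ ∧ 1 - L * (1 - ‖w‖) ≤ ‖B w‖ ∧
      ‖deriv p w‖ ≤ L ∧ ‖p w‖ ≤ L * ‖w - 1‖ ∧ (1 - ‖w‖ ^ 2) * ‖deriv p w‖ ≤ 13 ∧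
        (‖B w‖ < 1 / 100 → ‖p w‖ ≤ 16)) ∧ (∀ w, ‖w‖ = 1 → ‖B w‖ = 1) ∧ K ≤ ‖p 0‖ ∧
          ‖B 0‖ ≤ 31250 / 31251 := by
  obtain ⟨p, B, a1, a2, a3, a4, a5, a6, a7, a8, a9⟩ := loc K
  obtain ⟨L, L0, l1, l2⟩ := a1.lip
  obtain ⟨M, M0, -, l3⟩ := a2.lip
  have n1 : ‖B (-1)‖ = 1 := a4 _ (by simp)
  have n : ∀ w, ‖B w / B (-1)‖ = ‖B w‖ := fun w => by rw [norm_div, n1, div_one]
  refine ⟨p, fun w => B w / B (-1), L + M, by positivity, fun w hw => ⟨a1.at hw, (a2.at hw).div_const _,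
    (n w).trans_le (a3 w hw), ?_, ?_, (l1 w hw).trans (by linarith), ?_, a5 w hw, fun e => ?_⟩,
      fun w hw => (n w).trans (a4 w hw), a7, (n 0).trans_le a8⟩
  · have := l3 w hw (-1) (by simp)
    rw [div_sub_one (norm_ne_zero_iff.1 (by simp [n1])), norm_div, n1, div_one]
    rw [sub_neg_eq_add w] at this
    nlinarith [norm_nonneg (w + 1)]
  · obtain ⟨θ, -, e⟩ := polar w
    have w1 := sub_nonneg.2 (mem_closedBall_zero_iff.1 hw)
    have b : ‖ex θ - w‖ = 1 - ‖w‖ := by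
      nth_rw 1 [e]
      rw [← one_sub_mul, norm_mul, ex_norm, mul_one, ← ofReal_one, ← ofReal_sub, norm_real,
        Real.norm_of_nonneg w1]
    have := (norm_sub_norm_le _ _).trans (l3 _ (mem_closedBall_zero_iff.2 (ex_norm θ).le) w hw)
    rw [a4 _ (ex_norm θ), b] at this
    rw [n]
    nlinarith
  · have := l2 w hw 1 (by simp)
    rw [a6, sub_zero] at this
    nlinarith [norm_nonneg (w - 1)]
  · rw [n] at e
    exact a9 w (mem_ball_zero_iff.2 ((mem_closedBall_zero_iff.1 hw).lt_of_ne fun e' => by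
      linarith [a4 w e'])) e

theorem cex (hW : Mo W) (h0 : ∀ c, 0 < c → ∃ t, 0 < t ∧ W t < c) {c C : ℝ} (c0 : 0 < c)
    (hc : ∀ t, 0 < t → t ≤ 1 → c * t ≤ W t) (ad : ∀ s t, 0 < s → s ≤ t → t ≤ 1 → s * W t ≤ C * (t * W s))
    (k : ∀ l, 0 < l → l < 1 → ∃ t, 0 < t ∧ t ≤ 1 / 2 ∧ W t / 2 < W (l * t)) :
    ∃ f Θ : ℂ → ℂ, DifferentiableOn ℂ f (ball 0 1) ∧ (∀ z ∈ ball (0 : ℂ) 1, ‖f z‖ ≤ 2) ∧ Bw W f ∧
      DifferentiableOn ℂ Θ (ball 0 1) ∧ (∀ z ∈ ball (0 : ℂ) 1, ‖Θ z‖ ≤ 1) ∧ Rad Θ ∧ Tw W f Θ (1 / 200) ∧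
      ∀ A, ∃ t, 0 < t ∧ t ≤ 1 ∧ ‖Θ (1 - t : ℝ)‖ < 31251 / 31252 ∧ A * W t < ‖f (1 - t : ℝ)‖ := by
  have C0 : 0 < C := by nlinarith [ad 1 1 one_pos le_rfl le_rfl, hW.pos 1 one_pos]
  have k1 : ∀ u, 0 < u → ∀ᶠ μ in 𝓝[>] 0, ∃ t, 0 < t ∧ t ≤ u ∧ W t / 2 < W (μ * (μ * t)) := fun u u0 => by
    filter_upwards [sml hW h0 (half_pos (hW.pos u u0)), Ioo_mem_nhdsGT one_pos] with μ e ⟨μ0, μ1⟩
    obtain ⟨t, t0, t1, e1⟩ := k (μ * μ) (by positivity) (by nlinarith)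
    refine ⟨t, t0, not_lt.1 fun e2 => ?_, mul_assoc μ μ t ▸ e1⟩
    linarith [hW.mono _ _ u0 e2.le, hW.mono (μ * μ * t) μ (by positivity) (by
      rw [mul_assoc]; exact mul_le_of_le_one_right μ0.le (by nlinarith))]
  obtain ⟨f, Θ, f1, f2, f3, a1, a2, a3, S, Λ, a4, a5⟩ := glue hW (X := fun K Λ S => (∀ z ∈ ball (0 : ℂ) 1,
    1 - ‖z‖ ∈ Icc S.lo S.hi → ‖S.T z‖ < 1 / 100 → ‖S.f z‖ + Λ * ‖1 - z‖ ≤ 17 * W (1 - ‖z‖)) ∧
      ∃ t, 0 < t ∧ t ≤ 1 ∧ t ∈ Icc S.lo S.hi ∧ ‖S.T (1 - t : ℝ)‖ ≤ 31250 / 31251 ∧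
        K * W t + Λ * t ≤ ‖S.f (1 - t : ℝ)‖) fun K η Λ η0 Λ0 => by
    obtain ⟨p, B, L, L0, b1, b2, b3, b4⟩ := loc' (2 * K + 1)
    obtain ⟨e, he⟩ : ∃ e : ℝ, e = (1 / 2) ^ (K + 2) := ⟨_, rfl⟩
    have e0 : 0 < e := by rw [he]; positivity
    have e1 : (1 / 2 : ℝ) ^ K = 4 * e := by rw [he, pow_add]; ring
    have e2 : (1 / 2 : ℝ) ^ K ≤ 1 := pow_le_one₀ (by norm_num) (by norm_num)
    obtain ⟨u, u1, u0, u2⟩ := ((sml hW h0 (c := η / (2 * L)) (by positivity)).and (Ioo_mem_nhdsGT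
      (show 0 < min (min 1 η) (e * η / L) by positivity))).exists
    simp only [lt_min_iff] at u2
    have s : ∀ a b : ℝ, 0 < b → ∀ᶠ μ in 𝓝[>] 0, a * μ < b := fun a b b0 =>
      ((show Continuous fun μ => a * μ by fun_prop).tendsto' 0 0 (mul_zero a)).eventually_lt_const b0
        |>.filter_mono nhdsWithin_le_nhds
    obtain ⟨μ, ⟨⟨t', t0', t1', w1⟩, μ0, μ1⟩, ⟨m1, m2⟩, m3, m4⟩ := (((k1 u u0).and (Ioo_mem_nhdsGT one_pos)).and
      (((s (L * C) e e0).and (s (8 * L) e e0)).and ((s (32 * L * Λ) c c0).and (s (2 * Λ) c c0)))).exists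
    obtain ⟨t, ht⟩ : ∃ t, t = μ * t' := ⟨_, rfl⟩
    rw [← ht] at w1
    have t0 : 0 < t := by rw [ht]; positivity
    have t1 : t ≤ t' := ht ▸ mul_le_of_le_one_left t0'.le μ1.le
    have t2 : t / μ = t' := by rw [ht, mul_div_cancel_left₀ _ μ0.ne']
    have t3 : μ * t ≤ t := mul_le_of_le_one_left t0.le μ1.le
    have t4 : t ≤ 1 := by linarith [u2.1.1]
    obtain ⟨w, hw⟩ : ∃ w, w = W (μ * t) := ⟨_, rfl⟩
    have w0 : 0 < w := hw ▸ hW.pos _ (by positivity)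
    have w2 : ∀ τ, μ * t ≤ τ → w ≤ W τ := fun τ e => hw ▸ hW.mono _ _ (by positivity) e
    have w3 : w * L * 2 ≤ η := by
      have := (lt_div_iff₀ (by positivity)).1 ((w2 u (by linarith)).trans_lt u1)
      linarith
    have w4 : c * t' ≤ 2 * w := by linarith [hc t' t0' (by linarith [u2.1.1])]
    have m := fun z (hz : z ∈ closedBall (0 : ℂ) 1) => mob t0 t4 (mem_closedBall_zero_iff.1 hz)
    have b := fun z (hz : z ∈ closedBall (0 : ℂ) 1) => b1 _ (mem_closedBall_zero_iff.2 (m z hz).1)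
    have n : ∀ y, ‖w * p y‖ = w * ‖p y‖ := fun y => by rw [norm_mul, norm_real, Real.norm_of_nonneg w0.le]
    have x1 := pt t0 t4 norm_one
    rw [mul_one] at x1
    have x2 : bf (1 - t : ℝ) (1 - t : ℝ) = 0 := by rw [bf, sub_self, zero_div]
    refine ⟨⟨fun z => w * p (bf (1 - t : ℝ) z), fun z => B (bf (1 - t : ℝ) z), μ * t, t / μ, w * L * 2 / t⟩,
      ⟨by positivity, by linarith [u2.1.2], by positivity, fun z hz => ?_, fun z hz => (b z hz).2.2.1,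
        fun z hz => b2 _ (bf1 (mem_ball_zero_iff.1 x1.2) hz), fun z hz e => ?_, fun z hz e => ?_,
        fun z hz => ?_, fun z hz => ?_, fun z hz => ?_⟩, fun z hz e e' => ?_, t, t0, t4, ⟨t3, t2 ▸ t1⟩, (congrArg (‖B ·‖) x2).trans_le b4, ?_⟩
    · obtain ⟨-, -, -, -, -, D, d, -⟩ := m z hz
      exact (b z hz).2.1.comp z d.differentiableAt
    · refine (b z hz).2.2.2.1.trans (le_of_mul_le_mul_right ?_ η0)
      have := (lt_div_iff₀ L0).1 u2.2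
      nlinarith [mul_le_mul_of_nonneg_left ((mul_le_mul_of_nonneg_left e (norm_nonneg _)).trans
        (m z hz).2.2.2.1) L0.le, mul_le_mul_of_nonneg_right (t1.trans t1') L0.le]
    · have := mul_le_mul_of_nonneg_left (win μ0 t0 t4 (mem_ball_zero_iff.1 hz) e).2 L0.le
      linarith [(b z (ball_subset_closedBall hz)).2.2.2.2.1]
    · obtain ⟨-, -, -, -, -, D, d, -⟩ := m z (ball_subset_closedBall hz)
      exact (((b z (ball_subset_closedBall hz)).1.comp z d.differentiableAt).const_mul _).differentiableWithinAt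
    · have hz := ball_subset_closedBall hz
      have := mul_le_mul_of_nonneg_left (b z hz).2.2.2.2.2.2.1 w0.le
      rw [← n, ← mul_assoc] at this
      refine ⟨this.trans (le_trans (mul_le_mul_of_nonneg_left ?_ (by positivity)) w3), this.trans ?_⟩
      · linarith [norm_sub_le (bf (1 - t : ℝ) z) 1, (m z hz).1, norm_one (α := ℂ)]
      · rw [div_mul_eq_mul_div, le_div_iff₀ t0, mul_assoc, mul_assoc _ 2]
        exact mul_le_mul_of_nonneg_left (m z hz).2.2.2.2.1 (by positivity)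
    · have z1 := mem_ball_zero_iff.1 hz
      have hz' := ball_subset_closedBall hz
      obtain ⟨q0, q1, -, -, -, D, d, q2⟩ := m z hz'
      obtain ⟨p1, -, -, -, -, p2, -, p3, -⟩ := b z hz'
      have W0 := hW.pos _ (sub_pos.2 z1)
      have q3 := sub_nonneg.2 (pow_le_one₀ (n := 2) (norm_nonneg _) q0)
      have r : (1 - ‖z‖) * ‖deriv (fun z => w * p (bf (1 - t : ℝ) z)) z‖ ≤
          w * ((1 - ‖bf (1 - t : ℝ) z‖ ^ 2) * ‖deriv p (bf (1 - t : ℝ) z)‖) := by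
        rw [show deriv (fun z => w * p (bf (1 - t : ℝ) z)) z = _ from
          ((p1.hasDerivAt.comp z d).const_mul (w : ℂ)).deriv, ← q2, norm_mul, norm_mul,
          norm_real, Real.norm_of_nonneg w0.le]
        refine (mul_le_mul_of_nonneg_right (sub_le_sub_left (pow_le_of_le_one (norm_nonneg z) z1.le
          two_ne_zero) 1) (by positivity)).trans_eq (by ring)
      have r1 := r.trans (mul_le_mul_of_nonneg_left (mul_le_mul_of_nonneg_left p2 q3) w0.le)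
      have r2 : 1 - ‖z‖ < μ * t → w * ((1 - ‖bf (1 - t : ℝ) z‖ ^ 2) * L) ≤ (1 / 2) ^ K * W (1 - ‖z‖) :=
        fun e => le_of_mul_le_mul_right (by
          have := mul_le_mul_of_nonneg_left (ad _ _ (sub_pos.2 z1) e.le (t3.trans t4)) L0.le
          rw [← hw] at this
          rw [e1]
          nlinarith [mul_le_mul_of_nonneg_left q1 (mul_pos w0 L0).le,
            mul_le_mul_of_nonneg_right m1.le (mul_pos t0 W0).le]) t0
      refine ⟨(le_or_gt _ _).elim (fun e => ?_) fun e => r1.trans ((r2 e).trans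
        (mul_le_mul_of_nonneg_right (by linarith) W0.le)), fun e => r1.trans ((le_or_gt _ _).elim
          (fun e' => ?_) r2)⟩
      · linarith [w2 _ e, mul_le_mul_of_nonneg_left p3 w0.le]
      · have := mul_le_mul_of_nonneg_right (win μ0 t0 t4 z1 e).1 L0.le
        rw [e1, mul_comm]
        exact mul_le_mul (by linarith) (w2 _ e') w0.le (by positivity)
    · have hz' := ball_subset_closedBall hz
      obtain ⟨q0, -, q1, -⟩ := m z hz'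
      obtain ⟨-, -, -, -, p1, -, -, -, p2⟩ := b z hz'
      have q2 := pow_le_of_le_one (norm_nonneg _) q0 two_ne_zero
      have q3 : ‖1 - z‖ ≤ 16 * L * t := by
        nlinarith [mul_le_mul_of_nonneg_left q1 L0.le, mul_le_mul_of_nonneg_right (show 1 / 2 ≤
          L * (1 - ‖bf (1 - t : ℝ) z‖ ^ 2) by nlinarith [show ‖B (bf (1 - t : ℝ) z)‖ < 1 / 100 from e'])
            (norm_nonneg (1 - z))]
      have q4 : Λ * ‖1 - z‖ ≤ w := by
        nlinarith [mul_le_mul_of_nonneg_left q3 Λ0, mul_le_mul_of_nonneg_right m3.le t0'.le]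
      simp only [n]
      linarith [w2 _ e.1, mul_le_mul_of_nonneg_left (p2 e') w0.le]
    · simp only [n, x2]
      nlinarith [mul_le_mul_of_nonneg_left b3 w0.le, mul_le_mul_of_nonneg_right m4.le t0'.le,
        mul_le_mul_of_nonneg_left ((hW.mono _ _ t0 t1).trans (show W t' ≤ 2 * w by linarith))
          (Nat.cast_nonneg K)]
  refine ⟨f, Θ, f1, f2, f3, a1, a2, a3, ⟨18, by norm_num, fun z hz e => ?_⟩, fun A => ?_⟩
  · obtain ⟨K, hK⟩ := a5 z hz (by linarith)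
    obtain ⟨-, e1, e2⟩ := (a4 K).2 z hz hK
    linarith [(a4 K).1.1 z hz hK (by linarith), norm_sub_norm_le (f z) ((S K).f z)]
  obtain ⟨K, hK⟩ := exists_nat_gt (A + 1)
  obtain ⟨⟨-, t, t0, t1, x2, x3, x4⟩, e⟩ := a4 K
  have x1 := pt t0 t1 norm_one
  rw [mul_one] at x1
  obtain ⟨e1, -, e2⟩ := e _ x1.2 (x1.1.symm ▸ x2)
  rw [norm_sub_rev, x1.1, show ‖1 - ((1 - t : ℝ) : ℂ)‖ = t by
    rw [ofReal_sub, ofReal_one, sub_sub_self, norm_real, Real.norm_of_nonneg t0.le]] at e2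
  exact ⟨t, t0, t1, by linarith, by
    nlinarith [norm_sub_norm_le ((S K).f (1 - t : ℝ)) (f (1 - t : ℝ)), hW.pos _ t0]⟩

theorem geom (hW : Mo W) (h : PW W) (h0 : ∀ c, 0 < c → ∃ t, 0 < t ∧ W t < c) :
    ∃ l, 0 < l ∧ l < 1 ∧ ∀ t, 0 < t → t ≤ 1 / 2 → W (l * t) ≤ W t / 2 := by
  obtain ⟨c, c0, hc⟩ := lin hW h
  obtain ⟨C, ad⟩ := adm hW h h0
  by_contra! k
  obtain ⟨f, Θ, f1, f2, f3, a1, a2, a3, a4, a5⟩ := cex hW h0 c0 hc ad k
  obtain ⟨A, -, hA⟩ := (h f Θ f1 f2 f3 a1 a2 a3 a4).2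
  obtain ⟨t, t0, t1, e1, e2⟩ := a5 A
  have x1 := pt t0 t1 norm_one
  rw [mul_one] at x1
  exact e2.not_ge (by simpa only [x1.1] using hA _ x1.2 e1)

end Pool.Agent.H.MP_3bea3b_an
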