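import Pool.Agent.H.MP_3bea3b_an.F

open Filter Topology Metric Set MeasureTheory

namespace Pool.Agent.H.MP_3bea3b_an

variable {ω : ℝ → ℝ}

lemma mm {t : ℝ} (h : 0 < t) : min t (1 / 2) ∈ Ioo (0 : ℝ) 1 :=
  ⟨lt_min h one_half_pos, (min_le_right _ _).trans_lt one_half_lt_one⟩

lemma mo (hm : MonotoneOn ω (Ioo 0 1)) (hp : ∀ t ∈ Ioo (0 : ℝ) 1, 0 < ω t) : Mo fun t => ω (min t (1 / 2)) :=
  ⟨fun _ h => hp _ (mm h), fun _ _ h e => hm (mm h) (mm (h.trans_le e)) (min_le_min_right _ e)⟩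

lemma tr1 (hm : MonotoneOn ω (Ioo 0 1)) (hp : ∀ t ∈ Ioo (0 : ℝ) 1, 0 < ω t) {g : ℂ → ℝ} {S : ℂ → Prop}
    {M C r : ℝ} (hM : ∀ z ∈ ball (0 : ℂ) 1, g z ≤ M) (C0 : 0 < C) (r1 : r < 1)
    (h : ∀ z, r < ‖z‖ → ‖z‖ < 1 → S z → g z ≤ C * ω (1 - ‖z‖)) :
    ∃ C, 0 ≤ C ∧ ∀ z ∈ ball (0 : ℂ) 1, S z → g z ≤ C * ω (min (1 - ‖z‖) (1 / 2)) := by
  have p : 0 < 1 - max r (1 / 2) := sub_pos.2 (max_lt r1 one_half_lt_one)
  have q := (mo hm hp).pos _ p
  refine ⟨C + |M| / ω (min (1 - max r (1 / 2)) (1 / 2)), by positivity, fun z hz e => ?_⟩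
  have z1 := mem_ball_zero_iff.1 hz
  have q1 := (mo hm hp).pos _ (sub_pos.2 z1)
  rw [add_mul]
  rcases le_or_gt ‖z‖ (max r (1 / 2)) with a | a
  · refine le_add_of_nonneg_of_le (by positivity) ((hM z hz).trans ((le_abs_self M).trans ?_))
    rw [div_mul_eq_mul_div, le_div_iff₀ q]
    exact mul_le_mul_of_nonneg_left ((mo hm hp).mono _ _ p (sub_le_sub_left a 1)) (abs_nonneg M)
  · rw [max_lt_iff] at a
    refine le_add_of_le_of_nonneg ?_ (by positivity)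
    rw [min_eq_left (by linarith [a.2])]
    exact h z a.1 z1 e

lemma tr2 (hm : MonotoneOn ω (Ioo 0 1)) (hp : ∀ t ∈ Ioo (0 : ℝ) 1, 0 < ω t) {g : ℂ → ℝ} {S : ℂ → Prop}
    (h : ∃ C, 0 ≤ C ∧ ∀ z ∈ ball (0 : ℂ) 1, S z → g z ≤ C * ω (min (1 - ‖z‖) (1 / 2))) :
    ∃ C > 0, ∀ z, 0 < ‖z‖ → ‖z‖ < 1 → S z → g z ≤ C * ω (1 - ‖z‖) := by
  obtain ⟨C, C0, h⟩ := h
  refine ⟨C + 1, by positivity, fun z z0 z1 e => (h z (mem_ball_zero_iff.2 z1) e).trans ?_⟩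
  have m : 1 - ‖z‖ ∈ Ioo (0 : ℝ) 1 := ⟨by linarith, by linarith⟩
  nlinarith [hm (mm m.1) m (min_le_left _ _), hp _ m]

lemma ad1 (hp : ∀ t ∈ Ioo (0 : ℝ) 1, 0 < ω t) {C : ℝ}
    (h : ∀ s t, 0 < s → s ≤ t → t ≤ 1 / 2 → ω t / t ≤ C * (ω s / s)) (s t : ℝ) (s0 : 0 < s) (s1 : s ≤ t) :
    s * ω (min t (1 / 2)) ≤ C * (t * ω (min s (1 / 2))) := by
  have a := mm s0
  have b := mm (s0.trans_le s1)
  have e := h _ _ a.1 (min_le_min_right _ s1) (min_le_right _ _)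
  have e1 : s * min t (1 / 2) ≤ t * min s (1 / 2) := by
    rcases le_total s (1 / 2) with c | c
    · rw [min_eq_left c, mul_comm t]
      exact mul_le_mul_of_nonneg_left (min_le_left _ _) s0.le
    · rw [min_eq_right c, min_eq_right (c.trans s1)]
      linarith
  have e2 := (div_pos (hp _ b) b.1).trans_le e
  rw [← mul_div_assoc, div_le_div_iff₀ b.1 a.1] at e
  rw [← mul_div_assoc] at e2
  have e3 := (div_pos_iff_of_pos_right a.1).1 e2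
  exact le_of_mul_le_mul_right (by
    nlinarith [mul_le_mul_of_nonneg_left e s0.le, mul_le_mul_of_nonneg_left e1 e3.le]) a.1

lemma di1 (hm : MonotoneOn ω (Ioo 0 1)) (hp : ∀ t ∈ Ioo (0 : ℝ) 1, 0 < ω t) {C : ℝ} (C1 : 0 < C)
    (h : ∀ t ∈ Ioc (0 : ℝ) (1 / 2), ∫⁻ s in Ioo 0 t, ENNReal.ofReal (ω s / s) ≤ ENNReal.ofReal (C * ω t)) :
    ∃ l, 0 < l ∧ l < 1 ∧ ∀ t, 0 < t → t ≤ 1 / 2 → ω (min (l * t) (1 / 2)) ≤ ω (min t (1 / 2)) / 2 := by
  obtain ⟨l, hl⟩ : ∃ l, l = Real.exp (-(2 * C)) := ⟨_, rfl⟩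
  have l0 : 0 < l := hl ▸ Real.exp_pos _
  have l1 : l < 1 := hl ▸ Real.exp_lt_one_iff.2 (by linarith)
  refine ⟨l, l0, l1, fun t t0 t1 => ?_⟩
  have a0 := mul_pos l0 t0
  have a1 : l * t ≤ t := mul_le_of_le_one_left t0.le l1.le
  have m : l * t ∈ Ioo (0 : ℝ) 1 := ⟨a0, by linarith⟩
  have i : IntervalIntegrable (fun s => ω (l * t) * s⁻¹) volume (l * t) t :=
    (ContinuousOn.intervalIntegrable_of_Icc a1 fun s hs =>
      (continuousAt_inv₀ (a0.trans_le hs.1).ne').continuousWithinAt).const_mul _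
  have e : ENNReal.ofReal (ω (l * t) * (2 * C)) = ∫⁻ s in Ioo (l * t) t, ENNReal.ofReal (ω (l * t) * s⁻¹) := by
    rw [← ofReal_integral_eq_lintegral_ofReal (i.1.mono_set Ioo_subset_Ioc_self)
      ((ae_restrict_mem measurableSet_Ioo).mono fun s hs => mul_nonneg (hp _ m).le
        (inv_pos.2 (a0.trans hs.1)).le), ← integral_Ioc_eq_integral_Ioo, ← intervalIntegral.integral_of_le a1,
      intervalIntegral.integral_const_mul, integral_inv_of_pos a0 t0, div_mul_cancel_right₀ t0.ne',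
      Real.log_inv, hl, Real.log_exp, neg_neg]
  have e1 := (e.trans_le ((setLIntegral_mono' measurableSet_Ioo fun s hs => ENNReal.ofReal_le_ofReal
    (mul_le_mul_of_nonneg_right (hm m ⟨a0.trans hs.1, by linarith [hs.2]⟩ hs.1.le)
      (inv_pos.2 (a0.trans hs.1)).le)).trans (lintegral_mono_set (Ioo_subset_Ioo_left a0.le)))).trans
        (by simpa only [div_eq_mul_inv] using h t ⟨t0, t1⟩)
  rw [ENNReal.ofReal_le_ofReal_iff (mul_pos C1 (hp t ⟨t0, by linarith⟩)).le] at e1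
  rw [min_eq_left (a1.trans t1), min_eq_left t1]
  exact le_of_mul_le_mul_left (by linarith) C1

lemma di2 (hm : MonotoneOn ω (Ioo 0 1)) (hp : ∀ t ∈ Ioo (0 : ℝ) 1, 0 < ω t) {l : ℝ} (l0 : 0 < l) (l1 : l < 1)
    (h : ∀ t, 0 < t → t ≤ 1 / 2 → ω (min (l * t) (1 / 2)) ≤ ω (min t (1 / 2)) / 2) {t : ℝ} (t0 : 0 < t)
    (t1 : t ≤ 1 / 2) : ∫⁻ s in Ioo 0 t, ENNReal.ofReal (ω s / s) ≤ ENNReal.ofReal (2 / l * ω t) := by
  have p1 : ∀ n : ℕ, l ^ n * t ≤ t := fun n => mul_le_of_le_one_left t0.le (pow_le_one₀ l0.le l1.le)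
  have w := hp t ⟨t0, by linarith⟩
  have g : ∀ n : ℕ, ω (l ^ n * t) ≤ (1 / 2) ^ n * ω t := fun n => by
    induction n with
    | zero => simp
    | succ n ih =>
      have := h (l ^ n * t) (by positivity) ((p1 n).trans t1)
      rw [← mul_assoc, ← pow_succ', min_eq_left ((p1 _).trans t1), min_eq_left ((p1 _).trans t1)] at this
      rw [pow_succ (1 / 2 : ℝ)]
      linarith
  have c : Ioo 0 t ⊆ ⋃ n : ℕ, Ioc (l ^ (n + 1) * t) (l ^ n * t) := fun s hs => mem_iUnion.2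
    ((exists_nat_pow_near_of_lt_one (div_pos hs.1 t0) ((div_le_one t0).2 hs.2.le) l0 l1).imp fun n e =>
      ⟨(lt_div_iff₀ t0).1 e.1, (div_le_iff₀ t0).1 e.2⟩)
  have s := hasSum_geometric_two.mul_right (ω t / l)
  rw [div_mul_comm, mul_comm, ← s.tsum_eq, ENNReal.ofReal_tsum_of_nonneg (fun n => by positivity) s.summable]
  refine (lintegral_mono_set c).trans ((lintegral_iUnion_le _ _).trans (ENNReal.tsum_le_tsum fun n => ?_))
  have a : 0 < l ^ (n + 1) * t := by positivity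
  refine (setLIntegral_mono' measurableSet_Ioc (g := fun _ => ENNReal.ofReal ((1 / 2) ^ n * ω t /
    (l ^ (n + 1) * t))) fun s hs => ENNReal.ofReal_le_ofReal (div_le_div₀ (by positivity)
      ((hm ⟨a.trans hs.1, by linarith [hs.2, p1 n]⟩ ⟨by positivity, by linarith [p1 n]⟩ hs.2).trans (g n)) a
        hs.1.le)).trans ?_
  rw [setLIntegral_const, Real.volume_Ioc, ← ENNReal.ofReal_mul (by positivity)]
  refine ENNReal.ofReal_le_ofReal ((mul_le_mul_of_nonneg_left (sub_le_self _ a.le) (by positivity)).trans_eq ?_)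
  field_simp
  ring

end Pool.Agent.H.MP_3bea3b_an
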